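import Pool.Agent.V8H24.QS.Trans
import Pool.Agent.N879.QM.AllB

set_option autoImplicit false

/-!
Assembly: moments over short intervals of discriminants for almost all small shifts.
-/

namespace Pool.Agent.V8H24.QS

open Complex hiding im
open Filter Topology MeasureTheory Set
open Pool.Agent.N879.QM
open scoped BigOperators

noncomputable section

theorem Q_mono (s : ℤ) {X' X : ℝ} (h : X' ≤ X) : Q s X' ⊆ Q s X := by
  classical
  intro q hq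
  unfold Q at hq ⊢
  rw [Finset.mem_filter, Finset.mem_Ico] at hq ⊢
  exact ⟨⟨hq.1.1, hq.1.2.trans_le (Nat.ceil_mono h)⟩, hq.2⟩

/-- the moments over intervals of discriminants -/
theorem short_main (k : ℕ) (hk : 1 ≤ k) {θ : ℝ} (hθ : 0 < θ) (hθ1 : θ ≤ 1) : ∃ m₁ : ℕ, ∀ m : ℕ, m₁ ≤ m →
    ∃ X₀ : ℝ, ∀ (s : ℤ) (X X' : ℝ), s = 1 ∨ s = -1 → X₀ ≤ X → 1 ≤ X' → X' ≤ X →
      mS k (X ^ θ) {β : Fin k → ℝ | X ^ (1 - θ / m / (128 * k)) <
        ‖(∑ q ∈ (Q s X \ Q s X') \ Ex s X (X ^ θ) (θ / m / (8 * k)), ∏ j, LL s q (pt (β j))) -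
          ((c0 * (X - X') : ℝ) : ℂ) * MT (im β)‖} ≤
        ENNReal.ofReal (X ^ (k * θ - θ / m / (256 * k))) := by
  classical
  have hE := t_EUL
  obtain ⟨CD, hCD, hD⟩ := t_DIAG (t_AVG t_UNI) k
  obtain ⟨CN, hCN, hN⟩ := t_NS k
  obtain ⟨m₀, hE3⟩ := E3 (t_COEF t_FL) (t_ZR t_ZET hE) hE hk (le_refl (1 : ℝ))
  refine ⟨m₀ + 32 * k + 32, ?_⟩
  intro m hm
  have hm1 : 1 ≤ m := by omega
  have hm0 : (0 : ℝ) < m := by exact_mod_cast hm1
  have hm32 : (32 : ℝ) * k + 32 ≤ m := by exact_mod_cast (by omega : 32 * k + 32 ≤ m)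
  obtain ⟨C3, X3, hC3, hE3⟩ := hE3 m (by omega) hm1
  set η : ℝ := θ / m with hη
  have hη0 : 0 < η := by positivity
  have hηθ : η ≤ θ / 4 := by
    rw [hη]
    exact div_le_div_of_nonneg_left hθ.le (by norm_num) (by linarith)
  have hk0 : (0 : ℝ) < k := by exact_mod_cast hk
  have hk1 : (1 : ℝ) ≤ k := by exact_mod_cast hk
  have hmη : η * m = θ := by rw [hη]; field_simp
  have hkη : k * η ≤ 1 / 32 := by
    have h1 : 32 * (k * η) ≤ 1 := by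
      have : 32 * k * η ≤ m * η := mul_le_mul_of_nonneg_right (by linarith) hη0.le
      nlinarith
    linarith
  set δ : ℝ := η / (128 * k) with hδ
  have hδ0 : 0 < δ := by positivity
  have hδ2 : η / (256 * k) = δ / 2 := by rw [hδ]; field_simp; norm_num
  have hδη : δ ≤ η / 128 := by
    rw [hδ]
    exact div_le_div_of_nonneg_left hη0.le (by norm_num) (by linarith)
  obtain ⟨X1, hT⟩ := trans k hk hθ hθ1 hη0 hηθ
  have hc0 : 0 < c0 := by unfold c0; positivity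
  -- large X
  have ev1 : ∀ᶠ X : ℝ in atTop, 8 * CD ≤ X ^ (3 / 8 - δ : ℝ) :=
    (tendsto_rpow_atTop (by linarith)).eventually_ge_atTop _
  have ev2 : ∀ᶠ X : ℝ in atTop, CN + 1 + 16 * c0 ^ 2 * C3 ≤ X ^ (δ / 2) :=
    (tendsto_rpow_atTop (by positivity)).eventually_ge_atTop _
  have ev4 : ∀ᶠ X : ℝ in atTop, max X3 2 ≤ X ^ θ :=
    (tendsto_rpow_atTop hθ).eventually_ge_atTop _
  obtain ⟨X₀, hX₀⟩ := eventually_atTop.1 (((ev1.and ev2).and ev4).and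
    ((eventually_ge_atTop X1).and (eventually_ge_atTop 2)))
  refine ⟨X₀, ?_⟩
  intro s X X' hs hX hX' hXX
  obtain ⟨⟨⟨v1, v2⟩, v4⟩, v5, v7⟩ := hX₀ X hX
  have hX0 : 0 < X := by linarith
  have hX1 : 1 ≤ X := by linarith
  set A : ℝ := X ^ θ with hA
  have hA2 : 2 ≤ A := (le_max_right _ _).trans v4
  have hA3 : X3 ≤ A := (le_max_left _ _).trans v4
  have hA1 : 1 ≤ A := by linarith
  have hAη : A ^ (1 / m : ℝ) = X ^ η := by
    rw [hA, ← Real.rpow_mul hX0.le, hη]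
    congr 1; ring
  set N : ℕ := ⌊X ^ η⌋₊ with hNd
  obtain ⟨f1, f2, f3⟩ := floor_half (Real.one_le_rpow hX1 hη0.le : 1 ≤ X ^ η)
  rw [← hNd] at f1 f2 f3
  have hN0 : (0 : ℝ) < N := by exact_mod_cast f3
  set E : Finset ℕ := Ex s X A (η / (8 * k)) with hEd
  obtain ⟨-, hT⟩ := hT s X hs v5
  set D : Finset ℕ := Q s X \ Q s X' with hDd
  have g1 := hT N f1 f2 f3 D (fun _ => 1) Finset.sdiff_subset (fun q _ => by simp)
  simp only [one_mul] at g1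
  rw [← hδ] at g1
  have g3 := hE3 A N hA3 hA2 (by rw [hAη]; exact f1) (by rw [hAη]; exact f2) f3
  rw [Real.rpow_one] at g3
  -- the diagonal error
  have g2 : ∀ β : Fin k → ℝ, ‖(∑ q ∈ D, ∏ j, PN s q N (β j)) - ((c0 * (X - X') : ℝ) : ℂ) * SN k N β‖ ≤
      X ^ (1 - δ) / 4 := by
    intro β
    have h1 : (N : ℝ) ^ k ≤ X ^ (1 / 8 : ℝ) := by
      calc (N : ℝ) ^ k ≤ (X ^ η) ^ k := pow_le_pow_left₀ hN0.le f2 _
        _ = X ^ (k * η) := by rw [← Real.rpow_natCast, ← Real.rpow_mul hX0.le]; congr 1; ring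
        _ ≤ X ^ (1 / 8 : ℝ) := Real.rpow_le_rpow_of_exponent_le hX1 (by linarith)
    have h2 : √X = X ^ (1 / 2 : ℝ) := Real.sqrt_eq_rpow X
    have h3 : X ^ (1 - δ) = X ^ (3 / 8 - δ : ℝ) * (X ^ (1 / 2 : ℝ) * X ^ (1 / 8 : ℝ)) := by
      rw [← Real.rpow_add hX0, ← Real.rpow_add hX0]; congr 1; ring
    have d1 := hD s X N β hs hX1 f3
    have d2 := hD s X' N β hs hX' f3
    have d3 : √X' ≤ √X := Real.sqrt_le_sqrt hXX
    have e0 : ∑ q ∈ D, ∏ j, PN s q N (β j) = (∑ q ∈ Q s X, ∏ j, PN s q N (β j)) - ∑ q ∈ Q s X', ∏ j, PN s q N (β j) := by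
      rw [hDd, ← Finset.sum_sdiff (Q_mono s hXX)]
      ring
    have e1 : (∑ q ∈ D, ∏ j, PN s q N (β j)) - ((c0 * (X - X') : ℝ) : ℂ) * SN k N β =
        ((∑ q ∈ Q s X, ∏ j, PN s q N (β j)) - ((c0 * X : ℝ) : ℂ) * SN k N β) -
        ((∑ q ∈ Q s X', ∏ j, PN s q N (β j)) - ((c0 * X' : ℝ) : ℂ) * SN k N β) := by
      rw [e0]
      push_cast
      ring
    rw [e1]
    refine (norm_sub_le _ _).trans ?_
    have d4 : CD * √X' * (N : ℝ) ^ k ≤ CD * √X * (N : ℝ) ^ k := by gcongr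
    have d5 : 2 * (CD * √X * (N : ℝ) ^ k) ≤ X ^ (1 - δ) / 4 := by
      rw [h2, h3, le_div_iff₀ (by norm_num)]
      calc 2 * (CD * X ^ (1 / 2 : ℝ) * (N : ℝ) ^ k) * 4 ≤ 2 * (CD * X ^ (1 / 2 : ℝ) * X ^ (1 / 8 : ℝ)) * 4 := by gcongr
        _ = 8 * CD * (X ^ (1 / 2 : ℝ) * X ^ (1 / 8 : ℝ)) := by ring
        _ ≤ X ^ (3 / 8 - δ : ℝ) * (X ^ (1 / 2 : ℝ) * X ^ (1 / 8 : ℝ)) := by gcongr
    linarith
  -- the sets
  set D1 : (Fin k → ℝ) → ℂ := fun β =>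
    (∑ q ∈ D \ E, ∏ j, LL s q (pt (β j))) - ∑ q ∈ D, ∏ j, PN s q N (β j) with hD1
  set D3 : (Fin k → ℝ) → ℂ := fun β => SN k N β - MT (im β) with hD3
  have hlam3 : 0 < X ^ (-δ) / (4 * c0) := by positivity
  have hsub : {β : Fin k → ℝ | X ^ (1 - δ) <
      ‖(∑ q ∈ D \ E, ∏ j, LL s q (pt (β j))) - ((c0 * (X - X') : ℝ) : ℂ) * MT (im β)‖} ⊆
      (Gd k A)ᶜ ∪ ({β | X ^ (1 - δ) / 2 < ‖D1 β‖} ∪
        ({β | X ^ (-δ) / (4 * c0) < ‖D3 β‖} ∩ Gd k A)) := by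
    intro β hβ
    by_contra hcon
    simp only [mem_union, mem_compl_iff, mem_inter_iff, not_or, not_and, not_not] at hcon
    obtain ⟨h1, h2, h3⟩ := hcon
    have h2' : ‖D1 β‖ ≤ X ^ (1 - δ) / 2 := not_lt.1 h2
    have h3' : ‖D3 β‖ ≤ X ^ (-δ) / (4 * c0) := by
      by_contra hh
      exact (h3 (not_le.1 hh)) h1
    have e : (∑ q ∈ D \ E, ∏ j, LL s q (pt (β j))) - ((c0 * (X - X') : ℝ) : ℂ) * MT (im β) =
        D1 β + ((∑ q ∈ D, ∏ j, PN s q N (β j)) - ((c0 * (X - X') : ℝ) : ℂ) * SN k N β) +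
          ((c0 * (X - X') : ℝ) : ℂ) * D3 β := by
      simp only [hD1, hD3]
      ring
    have h4 : ‖((c0 * (X - X') : ℝ) : ℂ) * D3 β‖ ≤ X ^ (1 - δ) / 4 := by
      have h0 : 0 ≤ X - X' := by linarith
      rw [norm_mul, Complex.norm_real, Real.norm_of_nonneg (by positivity)]
      calc c0 * (X - X') * ‖D3 β‖ ≤ c0 * X * (X ^ (-δ) / (4 * c0)) := by
            gcongr
            linarith
        _ = X ^ (-δ) * X / 4 := by field_simp
        _ = X ^ (1 - δ) / 4 := by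
            nth_rewrite 2 [← Real.rpow_one X]
            rw [← Real.rpow_add hX0]; congr 2; ring
    have h5 : ‖(∑ q ∈ D \ E, ∏ j, LL s q (pt (β j))) - ((c0 * (X - X') : ℝ) : ℂ) * MT (im β)‖ ≤ X ^ (1 - δ) := by
      rw [e]
      refine (norm_add_le _ _).trans ?_
      have k2 := norm_add_le (D1 β) ((∑ q ∈ D, ∏ j, PN s q N (β j)) - ((c0 * (X - X') : ℝ) : ℂ) * SN k N β)
      linarith [g2 β]
    exact absurd h5 (not_le.2 hβ)
  refine (measure_mono hsub).trans ?_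
  refine (measure_union_le _ _).trans ((add_le_add_right (measure_union_le _ _) _).trans ?_)
  have m1 : mS k A (Gd k A)ᶜ ≤ ENNReal.ofReal (CN * X ^ (k * θ - δ)) := by
    refine (hN A hA1).trans (ENNReal.ofReal_le_ofReal ?_)
    apply mul_le_mul_of_nonneg_left _ hCN.le
    rw [hA, ← Real.rpow_mul hX0.le]
    apply Real.rpow_le_rpow_of_exponent_le hX1
    have : 2 * δ ≤ θ := by linarith
    nlinarith
  have m3 : mS k A ({β | X ^ (-δ) / (4 * c0) < ‖D3 β‖} ∩ Gd k A) ≤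
      ENNReal.ofReal (16 * c0 ^ 2 * C3 * X ^ (k * θ - δ)) := by
    rw [← Measure.restrict_apply' (Gd_meas k A)]
    have hmD : Measurable D3 := (meas_SN N).sub (meas_MT hE)
    refine (cheb (g := fun β => ‖D3 β‖) hmD.norm.aemeasurable hlam3 g3).trans
      (ENNReal.ofReal_le_ofReal ?_)
    have e1 : (X ^ (-δ) / (4 * c0)) ^ 2 = X ^ (-(2 * δ)) / (16 * c0 ^ 2) := by
      rw [div_pow, ← Real.rpow_natCast, ← Real.rpow_mul hX0.le]
      norm_num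
      rw [mul_pow]; norm_num
      congr 2; ring
    rw [e1]
    have e2 : A ^ ((k : ℝ) * 1 - 1 / (4 * m)) ≤ X ^ (k * θ - δ) * X ^ (-(2 * δ)) := by
      rw [← Real.rpow_add hX0, hA, ← Real.rpow_mul hX0.le]
      apply Real.rpow_le_rpow_of_exponent_le hX1
      have h1 : θ * ((k : ℝ) * 1 - 1 / (4 * m)) = k * θ - η / 4 := by rw [hη]; field_simp
      rw [h1]
      linarith
    have e3 : 0 < X ^ (-(2 * δ)) := by positivity
    rw [div_le_iff₀ (by positivity)]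
    calc C3 * A ^ ((k : ℝ) * 1 - 1 / (4 * m)) ≤ C3 * (X ^ (k * θ - δ) * X ^ (-(2 * δ))) := by gcongr
      _ = 16 * c0 ^ 2 * C3 * X ^ (k * θ - δ) * (X ^ (-(2 * δ)) / (16 * c0 ^ 2)) := by
          field_simp
  refine (add_le_add m1 (add_le_add g1 m3)).trans ?_
  rw [← ENNReal.ofReal_add (by positivity) (by positivity), ← ENNReal.ofReal_add (by positivity) (by positivity)]
  apply ENNReal.ofReal_le_ofReal
  rw [hδ2]
  calc CN * X ^ (k * θ - δ) + (X ^ (k * θ - δ) + 16 * c0 ^ 2 * C3 * X ^ (k * θ - δ))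
      = (CN + 1 + 16 * c0 ^ 2 * C3) * X ^ (k * θ - δ) := by ring
    _ ≤ X ^ (δ / 2) * X ^ (k * θ - δ) := by gcongr
    _ = X ^ (k * θ - δ / 2) := by rw [← Real.rpow_add hX0]; congr 1; ring

end

end Pool.Agent.V8H24.QS
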