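import Pool.Agent.V8H24.QS.Sharp

set_option autoImplicit false

/-!
Partial summation: the unweighted sums over the prime conductors.
-/

namespace Pool.Agent.V8H24.QS

open Complex hiding im
open Finset Filter Topology
open Pool.Agent.N879.QM (Is Rp vl ch)

noncomputable section

theorem PD_two {s : ℤ} {M : ℕ} (h : M ≤ 2) : PD s M = ∅ := by
  ext p
  rw [mem_PD]
  constructor
  · rintro ⟨h1, h2, -⟩
    have := h2.two_le
    omega
  · intro h
    exact absurd h (notMem_empty _)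

theorem S1_small (s : ℤ) (n : ℕ) {i : ℕ} (hi : i ≤ 1) : S1 s n (i + 1) = 0 := by
  unfold S1
  rw [PD_two (by omega), sum_empty]

theorem PD_card (s : ℤ) (M : ℕ) : (PD s (M + 1)).card ≤ M := by
  rw [PD_succ]
  refine (card_filter_le _ _).trans ?_
  rw [Nat.card_Icc]
  omega

theorem S1_triv (s : ℤ) (n M : ℕ) : ‖S1 s n (M + 1)‖ ≤ M * Real.log M := by
  unfold S1
  have h1 : ∀ p ∈ PD s (M + 1), ‖((Real.log p : ℝ) : ℂ) * vl s p n‖ ≤ Real.log M := by
    intro p hp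
    rw [mem_PD] at hp
    have hp0 : (0 : ℝ) < p := by exact_mod_cast hp.2.1.pos
    have h2 : Real.log p ≤ Real.log M := Real.log_le_log hp0 (by exact_mod_cast (by omega : p ≤ M))
    have h3 := Real.log_natCast_nonneg p
    rw [norm_mul, norm_real, Real.norm_of_nonneg h3]
    have := vl_norm s p n
    calc Real.log p * ‖vl s p n‖ ≤ Real.log M * 1 := by gcongr
      _ = _ := mul_one _
  refine (norm_sum_le_of_le _ h1).trans ?_
  rw [sum_const, nsmul_eq_mul]
  apply mul_le_mul_of_nonneg_right _ (Real.log_natCast_nonneg M)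
  exact_mod_cast PD_card s M

theorem S0_triv (s : ℤ) (n M : ℕ) : ‖S0 s n (M + 1)‖ ≤ M := by
  unfold S0
  refine (norm_sum_le_of_le _ fun p _ => vl_norm s p n).trans ?_
  rw [sum_const, nsmul_eq_mul, mul_one]
  exact_mod_cast PD_card s M

/-- differences of `1 / log` -/
def dl (i : ℕ) : ℝ := 1 / Real.log i - 1 / Real.log ((i + 1 : ℕ) : ℝ)

theorem dl_nonneg {i : ℕ} (hi : 2 ≤ i) : 0 ≤ dl i := by
  unfold dl
  have h1 : 0 < Real.log i := Real.log_pos (by exact_mod_cast hi)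
  have h2 : Real.log i ≤ Real.log ((i + 1 : ℕ) : ℝ) :=
    Real.log_le_log (by exact_mod_cast (by omega : 0 < i)) (by exact_mod_cast (by omega : i ≤ i + 1))
  have := one_div_le_one_div_of_le h1 h2
  linarith

theorem sum_dl {M : ℕ} (hM : 2 ≤ M) : ∑ i ∈ Ico 2 M, dl i ≤ 1 / Real.log 2 := by
  have h : ∀ M : ℕ, 2 ≤ M → ∑ i ∈ Ico 2 M, dl i = 1 / Real.log 2 - 1 / Real.log M := by
    intro M hM
    induction M, hM using Nat.le_induction with
    | base => simp
    | succ M hM ih =>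
      rw [sum_Ico_succ_top hM, ih]
      unfold dl
      ring
  rw [h M hM]
  have : 0 ≤ 1 / Real.log (M : ℝ) := div_nonneg zero_le_one (Real.log_natCast_nonneg M)
  linarith

theorem abel (s : ℤ) (n : ℕ) {M : ℕ} (hM : 2 ≤ M) : ‖S0 s n (M + 1)‖ ≤ (1 / Real.log M) * ‖S1 s n (M + 1)‖ +
    ∑ i ∈ Ico 2 M, dl i * ‖S1 s n (i + 1)‖ := by
  classical
  set f : ℕ → ℂ := fun j => ((1 / Real.log j : ℝ) : ℂ) with hf
  set g : ℕ → ℂ := fun j => if j.Prime ∧ (j : ℤ) % 4 = s % 4 then ((Real.log j : ℝ) : ℂ) * vl s j n else 0 with hg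
  have hS1 : ∀ m : ℕ, S1 s n m = ∑ j ∈ range m, g j := by
    intro m
    unfold S1 PD
    rw [sum_filter]
  have hS0 : S0 s n (M + 1) = ∑ j ∈ range (M + 1), f j • g j := by
    unfold S0 PD
    rw [sum_filter]
    refine sum_congr rfl fun j _ => ?_
    simp only [hf, hg, smul_eq_mul]
    split_ifs with h
    · have h1 : Real.log j ≠ 0 := (Real.log_pos (by exact_mod_cast h.1.one_lt)).ne'
      rw [← mul_assoc, ← ofReal_mul, one_div_mul_cancel h1, ofReal_one, one_mul]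
    · rw [mul_zero]
  rw [hS0, Finset.sum_range_by_parts, Nat.add_sub_cancel]
  have e1 : ∑ j ∈ range (M + 1), g j = S1 s n (M + 1) := (hS1 _).symm
  have e2 : ∑ i ∈ range M, (f (i + 1) - f i) • ∑ j ∈ range (i + 1), g j =
      ∑ i ∈ Ico 2 M, (f (i + 1) - f i) • S1 s n (i + 1) := by
    rw [range_eq_Ico, ← sum_Ico_consecutive _ (Nat.zero_le 2) hM]
    have e3 : ∑ i ∈ Ico 0 2, (f (i + 1) - f i) • ∑ j ∈ range (i + 1), g j = 0 := by
      refine sum_eq_zero fun i hi => ?_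
      rw [mem_Ico] at hi
      rw [← hS1, S1_small s n (by omega), smul_zero]
    rw [e3, zero_add]
    refine sum_congr rfl fun i _ => ?_
    rw [← hS1]
  rw [e1, e2]
  refine (norm_sub_le _ _).trans (add_le_add ?_ ?_)
  · rw [norm_smul]
    simp only [hf]
    rw [norm_real, Real.norm_of_nonneg (div_nonneg zero_le_one (Real.log_natCast_nonneg M))]
  · refine norm_sum_le_of_le _ fun i hi => ?_
    rw [mem_Ico] at hi
    rw [norm_smul]
    have e4 : f (i + 1) - f i = ((-(dl i) : ℝ) : ℂ) := by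
      simp only [hf]
      unfold dl
      push_cast
      ring
    rw [e4, norm_real, norm_neg, Real.norm_of_nonneg (dl_nonneg hi.1)]

/-- the unweighted sums on average -/
theorem sum_S0 (U : ℕ) : ∃ M₀ : ℝ, ∀ (s : ℤ) (M K : ℕ), s = 1 ∨ s = -1 → M₀ ≤ M → 1 ≤ K →
    (K : ℝ) ≤ (M : ℝ) ^ (1 / 8 : ℝ) → ∑ n ∈ NSq K, (1 / (n : ℝ)) * ‖S0 s n (M + 1)‖ ≤ M / Real.log M ^ U := by
  obtain ⟨M₁, hS⟩ := sum_S1 (U + 2)
  have ev1 : ∀ᶠ X : ℝ in atTop, 2 ^ (U + 2) ≤ Real.log X := Real.tendsto_log_atTop.eventually_ge_atTop _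
  have ev2 : ∀ᶠ X : ℝ in atTop, 4 ≤ Real.log X := Real.tendsto_log_atTop.eventually_ge_atTop _
  have ev3 := log_pow_le (U + 3) (show (0 : ℝ) < 1 / 4 by norm_num)
  have ev4 : ∀ᶠ X : ℝ in atTop, 2 ≤ X ^ (1 / 4 : ℝ) := (tendsto_rpow_atTop (by norm_num)).eventually_ge_atTop _
  have ev5 : ∀ᶠ X : ℝ in atTop, max M₁ 2 ≤ X ^ (1 / 2 : ℝ) :=
    (tendsto_rpow_atTop (by norm_num)).eventually_ge_atTop _
  obtain ⟨M₀, hM₀⟩ := eventually_atTop.1 (((ev1.and ev2).and (ev3.and ev4)).and (ev5.and (eventually_ge_atTop 4)))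
  refine ⟨M₀, ?_⟩
  intro s M K hs hM hK hKM
  obtain ⟨⟨⟨v1, v2⟩, v3, v4⟩, v5, v6⟩ := hM₀ M hM
  have hM0 : (0 : ℝ) < M := by linarith
  have hM1 : (1 : ℝ) ≤ M := by linarith
  have hMn : 2 ≤ M := by
    have : (2 : ℝ) ≤ M := by linarith
    exact_mod_cast this
  set L := Real.log M with hL
  have hL0 : 0 < L := by linarith
  have hK0 : (0 : ℝ) < K := by exact_mod_cast hK
  have hKM' : (K : ℝ) ≤ M := by
    refine hKM.trans ?_
    calc (M : ℝ) ^ (1 / 8 : ℝ) ≤ (M : ℝ) ^ (1 : ℝ) := Real.rpow_le_rpow_of_exponent_le hM1 (by norm_num)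
      _ = M := Real.rpow_one _
  have hlK : Real.log K ≤ L := Real.log_le_log hK0 hKM'
  have hin : ∑ n ∈ NSq K, (1 / (n : ℝ)) ≤ 2 * L := by
    calc ∑ n ∈ NSq K, (1 / (n : ℝ)) ≤ ∑ n ∈ Icc 1 K, (1 / (n : ℝ)) :=
          sum_le_sum_of_subset_of_nonneg (NSq_sub K) fun n _ _ => by positivity
      _ ≤ 1 + Real.log K := sum_inv_le
      _ ≤ 2 * L := by linarith
  set T : ℕ → ℝ := fun i => ∑ n ∈ NSq K, (1 / (n : ℝ)) * ‖S1 s n (i + 1)‖ with hT
  have hB : ∀ i : ℕ, 2 ≤ i → i ≤ M → T i ≤ M / L ^ (U + 1) := by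
    intro i hi2 hiM
    have hi0 : (0 : ℝ) < i := by exact_mod_cast (by omega : 0 < i)
    have hiM' : (i : ℝ) ≤ M := by exact_mod_cast hiM
    rcases le_total ((M : ℝ) ^ (1 / 2 : ℝ)) (i : ℝ) with h | h
    · have h1 : M₁ ≤ i := (le_max_left _ _).trans (v5.trans h)
      have h2 : (K : ℝ) ≤ (i : ℝ) ^ (1 / 4 : ℝ) := by
        refine hKM.trans ?_
        calc (M : ℝ) ^ (1 / 8 : ℝ) = ((M : ℝ) ^ (1 / 2 : ℝ)) ^ (1 / 4 : ℝ) := by
              rw [← Real.rpow_mul hM0.le]; norm_num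
          _ ≤ (i : ℝ) ^ (1 / 4 : ℝ) := Real.rpow_le_rpow (by positivity) h (by norm_num)
      have h3 := hS s i K hs h1 hK h2
      refine h3.trans ?_
      have h4 : L / 2 ≤ Real.log i := by
        calc L / 2 = Real.log ((M : ℝ) ^ (1 / 2 : ℝ)) := by rw [Real.log_rpow hM0]; ring
          _ ≤ Real.log i := Real.log_le_log (by positivity) h
      have h5 : (L / 2) ^ (U + 2) ≤ Real.log i ^ (U + 2) := pow_le_pow_left₀ (by positivity) h4 _
      calc (i : ℝ) / Real.log i ^ (U + 2) ≤ M / (L / 2) ^ (U + 2) :=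
            div_le_div₀ hM0.le hiM' (by positivity) h5
        _ = (2 ^ (U + 2) / L) * (M / L ^ (U + 1)) := by
            rw [div_pow, pow_succ L (U + 1)]
            field_simp
        _ ≤ 1 * (M / L ^ (U + 1)) := by
            apply mul_le_mul_of_nonneg_right _ (by positivity)
            rw [div_le_one hL0]
            exact v1
        _ = _ := one_mul _
    · have h1 : T i ≤ (M : ℝ) ^ (1 / 2 : ℝ) * L * (2 * L) := by
        have h2 : ∀ n ∈ NSq K, (1 / (n : ℝ)) * ‖S1 s n (i + 1)‖ ≤ ((M : ℝ) ^ (1 / 2 : ℝ) * L) * (1 / (n : ℝ)) := by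
          intro n _
          have h3 := S1_triv s n i
          have h4 : (i : ℝ) * Real.log i ≤ (M : ℝ) ^ (1 / 2 : ℝ) * L := by
            have h5 : Real.log i ≤ L := Real.log_le_log hi0 hiM'
            have h6 := Real.log_natCast_nonneg i
            gcongr
          rw [mul_comm]
          exact mul_le_mul_of_nonneg_right (h3.trans h4) (by positivity)
        refine (sum_le_sum h2).trans ?_
        rw [← mul_sum]
        exact mul_le_mul_of_nonneg_left hin (by positivity)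
      refine h1.trans ?_
      rw [le_div_iff₀ (by positivity)]
      calc (M : ℝ) ^ (1 / 2 : ℝ) * L * (2 * L) * L ^ (U + 1) = (M : ℝ) ^ (1 / 2 : ℝ) * (2 * L ^ (U + 3)) := by ring
        _ ≤ (M : ℝ) ^ (1 / 2 : ℝ) * ((M : ℝ) ^ (1 / 4 : ℝ) * (M : ℝ) ^ (1 / 4 : ℝ)) := by gcongr
        _ = M := by
            rw [← Real.rpow_add hM0, ← Real.rpow_add hM0]
            norm_num
  have key : ∀ n ∈ NSq K, (1 / (n : ℝ)) * ‖S0 s n (M + 1)‖ ≤
      (1 / L) * ((1 / (n : ℝ)) * ‖S1 s n (M + 1)‖) +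
        ∑ i ∈ Ico 2 M, dl i * ((1 / (n : ℝ)) * ‖S1 s n (i + 1)‖) := by
    intro n _
    have := abel s n hMn
    have hn0 : (0 : ℝ) ≤ 1 / (n : ℝ) := by positivity
    calc (1 / (n : ℝ)) * ‖S0 s n (M + 1)‖ ≤ (1 / (n : ℝ)) *
          ((1 / L) * ‖S1 s n (M + 1)‖ + ∑ i ∈ Ico 2 M, dl i * ‖S1 s n (i + 1)‖) :=
            mul_le_mul_of_nonneg_left this hn0
      _ = _ := by
          rw [mul_add, mul_sum]
          congr 1
          · ring
          · exact sum_congr rfl fun i _ => by ring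
  refine (sum_le_sum key).trans ?_
  rw [sum_add_distrib, ← mul_sum, sum_comm]
  simp only [← mul_sum]
  have hb0 : 0 ≤ M / L ^ (U + 1) := by positivity
  have c1 : (1 / L) * T M ≤ 1 * (M / L ^ (U + 1)) := by
    have h1 : 1 / L ≤ 1 := by rw [div_le_one hL0]; linarith
    have h2 : 0 ≤ T M := sum_nonneg fun n _ => by positivity
    exact mul_le_mul h1 (hB M hMn le_rfl) h2 zero_le_one
  have c2 : ∑ i ∈ Ico 2 M, dl i * T i ≤ 2 * (M / L ^ (U + 1)) := by
    calc ∑ i ∈ Ico 2 M, dl i * T i ≤ ∑ i ∈ Ico 2 M, dl i * (M / L ^ (U + 1)) := by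
          refine sum_le_sum fun i hi => ?_
          rw [mem_Ico] at hi
          exact mul_le_mul_of_nonneg_left (hB i hi.1 hi.2.le) (dl_nonneg hi.1)
      _ = (∑ i ∈ Ico 2 M, dl i) * (M / L ^ (U + 1)) := (sum_mul ..).symm
      _ ≤ 2 * (M / L ^ (U + 1)) := by
          apply mul_le_mul_of_nonneg_right _ hb0
          refine (sum_dl hMn).trans ?_
          have := Real.log_two_gt_d9
          rw [div_le_iff₀ (by linarith)]
          linarith
  have c3 : 4 * (M / L ^ (U + 1)) ≤ M / L ^ U := by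
    rw [pow_succ, mul_div_assoc', div_le_div_iff₀ (by positivity) (by positivity)]
    have : 0 ≤ (M : ℝ) * L ^ U := by positivity
    nlinarith
  have c4 : (1 / L) * T M + ∑ i ∈ Ico 2 M, dl i * T i ≤ M / L ^ U := by linarith
  exact c4

end

end Pool.Agent.V8H24.QS
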