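import Pool.Agent.V8H24.QS.Dv
import Pool.Agent.V8H24.QS.Meas1
import Pool.Agent.N879.QM.Diag

set_option autoImplicit false

/-!
The diagonal and the off-diagonal part of the product of short Dirichlet polynomials over prime conductors.
-/

namespace Pool.Agent.V8H24.QS

open Complex hiding im
open Finset Filter Topology MeasureTheory
open Pool.Agent.N879.QM Pool.Agent.N879.QM.Coef
open scoped BigOperators

noncomputable section

/-- tuples whose product is not a square -/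
def NT (k N : ℕ) : Finset (Fin k → ℕ) := by
  classical
  exact (tup k N).filter (fun n => ¬ IsSquare (∏ j, n j))

theorem mem_NT {k N : ℕ} {n : Fin k → ℕ} : n ∈ NT k N ↔ n ∈ tup k N ∧ ¬ IsSquare (∏ j, n j) := by
  classical
  unfold NT
  rw [mem_filter]

/-- the off-diagonal part -/
def OD (s : ℤ) (k N M : ℕ) (β : Fin k → ℝ) : ℂ := ∑ n ∈ NT k N, S0 s (∏ j, n j) M * cx n β

theorem prod_mem {k N : ℕ} {n : Fin k → ℕ} (hn : n ∈ tup k N) : 1 ≤ ∏ j, n j ∧ ∏ j, n j ≤ N ^ k := by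
  rw [mem_tup] at hn
  refine ⟨one_le_prod fun j => (hn j).1, ?_⟩
  calc ∏ j, n j ≤ ∏ _j : Fin k, N := Finset.prod_le_prod' fun j _ => (hn j).2
    _ = N ^ k := by rw [Finset.prod_const, Finset.card_univ, Fintype.card_fin]

theorem tup_card (k N : ℕ) : ((tup k N).card : ℝ) = (N : ℝ) ^ k := by
  unfold tup
  rw [Fintype.card_piFinset]
  simp

theorem sum_NT (s : ℤ) (k N M : ℕ) :
    ∑ n ∈ NT k N, ‖S0 s (∏ j, n j) (M + 1)‖ ^ 2 * (1 / PP n) ≤
      ∑ m ∈ NSq (N ^ k), tau m ^ k * (1 / (m : ℝ)) * ‖S0 s m (M + 1)‖ ^ 2 := by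
  classical
  have h1 : ∀ n ∈ NT k N, ∏ j, n j ∈ NSq (N ^ k) := by
    intro n hn
    rw [mem_NT] at hn
    rw [mem_NSq]
    exact ⟨prod_mem hn.1, hn.2⟩
  rw [← Finset.sum_fiberwise_of_maps_to h1]
  refine Finset.sum_le_sum fun m hm => ?_
  rw [mem_NSq] at hm
  have h2 : ∀ n ∈ (NT k N).filter (fun n => ∏ j, n j = m), ‖S0 s (∏ j, n j) (M + 1)‖ ^ 2 * (1 / PP n) =
      ‖S0 s m (M + 1)‖ ^ 2 * (1 / (m : ℝ)) := by
    intro n hn
    rw [mem_filter] at hn
    unfold PP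
    rw [hn.2]
  rw [Finset.sum_congr rfl h2, Finset.sum_const, nsmul_eq_mul]
  have h3 : (((NT k N).filter (fun n => ∏ j, n j = m)).card : ℝ) ≤ tau m ^ k := by
    have h4 : (NT k N).filter (fun n => ∏ j, n j = m) ⊆ (tup k N).filter (fun n => ∏ j, n j = m) := by
      intro n hn
      rw [mem_filter, mem_NT] at hn
      rw [mem_filter]
      exact ⟨hn.1.1, hn.2⟩
    have h5 := (card_le_card h4).trans (card_fib k N m hm.1.1)
    unfold tau
    exact_mod_cast h5
  calc _ ≤ tau m ^ k * (‖S0 s m (M + 1)‖ ^ 2 * (1 / (m : ℝ))) := mul_le_mul_of_nonneg_right h3 (by positivity)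
    _ = _ := by ring

/-- the mean square of the off-diagonal part -/
theorem off_ms (s : ℤ) (k N M : ℕ) {A V : ℝ} (hN : 1 ≤ N) (hA : 0 < A)
    (hV : ∑ m ∈ NSq (N ^ k), tau m ^ k * (1 / (m : ℝ)) * ‖S0 s m (M + 1)‖ ^ 2 ≤ V) :
    ∫⁻ β, ENNReal.ofReal (‖OD s k N (M + 1) β‖ ^ 2) ∂(mS k A) ≤
      ENNReal.ofReal ((2 * A) ^ k * V + 4 * N * (2 * A) ^ (k - 1 : ℝ) * ((M : ℝ) * (N : ℝ) ^ k) ^ 2) := by
  classical
  set c : (Fin k → ℕ) → ℂ := fun n => if IsSquare (∏ j, n j) then 0 else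
    S0 s (∏ j, n j) (M + 1) * ((PP n ^ (-(1 / 2) : ℝ) : ℝ) : ℂ) with hc
  have h1 := t_FL k N A c hN hA
  have e1 : ∀ β : Fin k → ℝ, OD s k N (M + 1) β = ∑ n ∈ tup k N, c n * ∏ j, (n j : ℂ) ^ (-(I * (β j : ℂ))) := by
    intro β
    unfold OD NT
    rw [Finset.sum_filter]
    refine Finset.sum_congr rfl fun n hn => ?_
    rw [mem_tup] at hn
    simp only [hc]
    by_cases hsq : IsSquare (∏ j, n j)
    · rw [if_pos hsq, if_neg (not_not.2 hsq), zero_mul]
    · rw [if_neg hsq, if_pos hsq, cx_split (fun j => (hn j).1), mul_assoc]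
  simp only [e1]
  refine h1.trans (ENNReal.ofReal_le_ofReal ?_)
  have hnorm : ∀ n ∈ tup k N, ‖c n‖ ≤ M ∧ ‖c n‖ ^ 2 = if n ∈ NT k N then
      ‖S0 s (∏ j, n j) (M + 1)‖ ^ 2 * (1 / PP n) else 0 := by
    intro n hn
    have hn' := mem_tup.1 hn
    have hP := one_le_PP (fun j => (hn' j).1)
    have hP0 : 0 < PP n := by linarith
    simp only [hc]
    by_cases hsq : IsSquare (∏ j, n j)
    · rw [if_pos hsq, norm_zero, if_neg (fun h => (mem_NT.1 h).2 hsq)]
      exact ⟨Nat.cast_nonneg _, by norm_num⟩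
    · rw [if_neg hsq, if_pos (mem_NT.2 ⟨hn, hsq⟩), norm_mul, Complex.norm_real,
        Real.norm_of_nonneg (by positivity)]
      constructor
      · have h2 : PP n ^ (-(1 / 2) : ℝ) ≤ 1 := Real.rpow_le_one_of_one_le_of_nonpos hP (by norm_num)
        calc ‖S0 s (∏ j, n j) (M + 1)‖ * PP n ^ (-(1 / 2) : ℝ) ≤ M * 1 := by
              have := S0_triv s (∏ j, n j) M
              gcongr
          _ = M := mul_one _
      · rw [mul_pow, ← Real.rpow_natCast (PP n ^ (-(1 / 2) : ℝ)), ← Real.rpow_mul hP0.le]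
        norm_num
        left
        exact Real.rpow_neg_one _
  have s1 : ∑ n ∈ tup k N, ‖c n‖ ^ 2 ≤ V := by
    rw [Finset.sum_congr rfl fun n hn => (hnorm n hn).2, Finset.sum_ite_mem]
    have e2 : tup k N ∩ NT k N = NT k N := by
      rw [Finset.inter_eq_right]
      intro n hn
      exact (mem_NT.1 hn).1
    rw [e2]
    exact (sum_NT s k N M).trans hV
  have s2 : ∑ n ∈ tup k N, ‖c n‖ ≤ (M : ℝ) * (N : ℝ) ^ k := by
    refine (Finset.sum_le_sum fun n hn => (hnorm n hn).1).trans ?_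
    rw [Finset.sum_const, nsmul_eq_mul, tup_card, mul_comm]
  have s3 : 0 ≤ ∑ n ∈ tup k N, ‖c n‖ := Finset.sum_nonneg fun _ _ => norm_nonneg _
  gcongr

/-- squares -/
theorem S0_sq {s : ℤ} (hs : s = 1 ∨ s = -1) {n : ℕ} (hn : 1 ≤ n) (h : IsSquare n) (M : ℕ) :
    ‖S0 s n M - ((PD s M).card : ℂ)‖ ≤ n := by
  classical
  obtain ⟨m, hm⟩ := h
  have hm0 : m ≠ 0 := by
    rintro rfl
    omega
  have h1 : S0 s n M - ((PD s M).card : ℂ) = ∑ p ∈ PD s M, (vl s p n - 1) := by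
    unfold S0
    rw [Finset.sum_sub_distrib, Finset.sum_const, nsmul_eq_mul, mul_one]
  have h2 : ∀ p ∈ PD s M, ‖vl s p n - 1‖ ≤ if p ∣ m then 1 else 0 := by
    intro p hp
    rw [mem_PD] at hp
    rw [vl_prime hs hp.2.1 hp.2.2, hm]
    have e1 : zro (((m * m : ℕ)) : ℤ) p = zro (m : ℤ) p * zro (m : ℤ) p := by
      push_cast
      exact zro_mul_left _ _ _
    rw [e1]
    split_ifs with hd
    · have h0 : zro (m : ℤ) p = 0 := by
        rw [zro_zero_iff]
        intro hc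
        have h1 : p ∣ 4 * (m : ℤ).natAbs := by
          rw [Int.natAbs_natCast]
          exact hd.mul_left _
        have h3 := Nat.dvd_gcd dvd_rfl h1
        rw [hc.gcd_eq_one] at h3
        exact hp.2.1.one_lt.ne' (Nat.dvd_one.1 h3)
      rw [h0]
      simp
    · have hodd := odd_of hs hp.2.2
      have h3 : zro (m : ℤ) p = 1 ∨ zro (m : ℤ) p = -1 := by
        unfold zro
        rw [if_pos hodd]
        have h4 : ((m : ℤ).gcd p) = 1 := by
          rw [Int.gcd_natCast_natCast]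
          exact ((Nat.Prime.coprime_iff_not_dvd hp.2.1).2 hd).symm
        exact jacobiSym.eq_one_or_neg_one h4
      rcases h3 with h3 | h3 <;> rw [h3] <;> simp
  rw [h1]
  refine (norm_sum_le_of_le _ h2).trans ?_
  rw [← Finset.sum_filter, Finset.sum_const, nsmul_eq_mul, mul_one]
  have h3 : (PD s M).filter (fun p => p ∣ m) ⊆ m.divisors := by
    intro p hp
    rw [mem_filter] at hp
    exact Nat.mem_divisors.2 ⟨hp.2, hm0⟩
  have h4 : ((PD s M).filter (fun p => p ∣ m)).card ≤ n := by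
    refine (card_le_card h3).trans ((Nat.card_divisors_le_self m).trans ?_)
    rw [hm]
    exact Nat.le_mul_of_pos_left m (Nat.pos_of_ne_zero hm0)
  exact_mod_cast h4

/-- the product of the short polynomials -/
theorem diag {s : ℤ} (hs : s = 1 ∨ s = -1) (k N M : ℕ) (β : Fin k → ℝ) :
    ‖(∑ p ∈ PD s M, ∏ j, PN s p N (β j)) - (((PD s M).card : ℂ) * E1.SN k N β + OD s k N M β)‖ ≤
      (N : ℝ) ^ k * (N : ℝ) ^ k := by
  classical
  have e1 : ∑ p ∈ PD s M, ∏ j, PN s p N (β j) = ∑ n ∈ tup k N, S0 s (∏ j, n j) M * cx n β := by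
    simp only [DiagA.expand]
    rw [Finset.sum_comm]
    exact Finset.sum_congr rfl fun n _ => (Finset.sum_mul ..).symm
  have e2 : ((PD s M).card : ℂ) * E1.SN k N β + OD s k N M β = ∑ n ∈ tup k N,
      (if IsSquare (∏ j, n j) then ((PD s M).card : ℂ) * cx n β else S0 s (∏ j, n j) M * cx n β) := by
    unfold E1.SN OD NT
    rw [Finset.mul_sum, Finset.sum_filter, ← Finset.sum_add_distrib]
    refine Finset.sum_congr rfl fun n _ => ?_
    by_cases hsq : IsSquare (∏ j, n j)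
    · simp [hsq]
    · simp [hsq]
  rw [e1, e2, ← Finset.sum_sub_distrib]
  have hbound : ∀ n ∈ tup k N, ‖S0 s (∏ j, n j) M * cx n β -
      (if IsSquare (∏ j, n j) then ((PD s M).card : ℂ) * cx n β else S0 s (∏ j, n j) M * cx n β)‖ ≤
      (N : ℝ) ^ k := by
    intro n hn
    obtain ⟨p1, p2⟩ := prod_mem hn
    have hn1 : ∀ j, 1 ≤ n j := fun j => (mem_tup.1 hn j).1
    by_cases hsq : IsSquare (∏ j, n j)
    · rw [if_pos hsq, ← sub_mul, norm_mul, DiagA.norm_cx hn1]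
      have h1 := S0_sq hs p1 hsq M
      have h2 : ((∏ j, n j : ℕ) : ℝ) ^ (-(1 / 2) : ℝ) ≤ 1 :=
        Real.rpow_le_one_of_one_le_of_nonpos (by exact_mod_cast p1) (by norm_num)
      have h3 : ((∏ j, n j : ℕ) : ℝ) ≤ (N : ℝ) ^ k := by exact_mod_cast p2
      calc _ ≤ (N : ℝ) ^ k * 1 := by
            apply mul_le_mul (h1.trans h3) h2 (Real.rpow_nonneg (Nat.cast_nonneg _) _) (by positivity)
        _ = _ := mul_one _
    · rw [if_neg hsq, sub_self, norm_zero]
      positivity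
  refine (norm_sum_le_of_le _ hbound).trans ?_
  rw [Finset.sum_const, nsmul_eq_mul, tup_card]

end

end Pool.Agent.V8H24.QS
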