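import Pool.Agent.V8H24.QS.Trans
import Pool.Agent.V8H24.QS.Off
import Pool.Agent.N879.QM.AllB

set_option autoImplicit false

/-!
Assembly: moments over prime conductors for almost all small shifts.
-/

namespace Pool.Agent.V8H24.QS

open Complex hiding im
open Filter Topology MeasureTheory Set
open Pool.Agent.N879.QM
open scoped BigOperators

noncomputable section

theorem PD_Q {s : ℤ} (hs : s = 1 ∨ s = -1) (X : ℝ) : PD s ⌈X⌉₊ ⊆ Q s X := by
  classical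
  intro p hp
  rw [mem_PD] at hp
  unfold Q
  rw [Finset.mem_filter, Finset.mem_Ico]
  exact ⟨⟨hp.2.1.two_le, hp.1⟩, is_prime hs hp.2.1 hp.2.2⟩

theorem meas_OD (s : ℤ) (k N M : ℕ) : Measurable fun β : Fin k → ℝ => OD s k N M β := by
  unfold OD
  exact Finset.measurable_sum _ fun n _ => measurable_const.mul (meas_cx n)

/-- powers of logarithms are small -/
theorem ev_log (B : ℕ) (C : ℝ) {η : ℝ} (hη : 0 < η) : ∀ᶠ X : ℝ in atTop, C * Real.log X ^ B ≤ X ^ η := by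
  have h1 := log_pow_le B (show 0 < η / 2 by positivity)
  have h2 : ∀ᶠ X : ℝ in atTop, |C| ≤ X ^ (η / 2) := (tendsto_rpow_atTop (by positivity)).eventually_ge_atTop _
  filter_upwards [h1, h2, eventually_ge_atTop 1] with X a b c
  have hX0 : 0 < X := by linarith
  have hl : 0 ≤ Real.log X ^ B := pow_nonneg (Real.log_nonneg c) B
  calc C * Real.log X ^ B ≤ |C| * Real.log X ^ B := mul_le_mul_of_nonneg_right (le_abs_self C) hl
    _ ≤ X ^ (η / 2) * X ^ (η / 2) := mul_le_mul b a hl (by positivity)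
    _ = X ^ η := by rw [← Real.rpow_add hX0]; congr 1; ring

/-- the moments over prime conductors -/
theorem prime_main (k : ℕ) (hk : 1 ≤ k) {θ : ℝ} (hθ : 0 < θ) (hθ1 : θ ≤ 1) : ∃ m₁ : ℕ, ∀ m : ℕ, m₁ ≤ m → ∀ U : ℕ,
    ∃ X₀ : ℝ, ∀ (s : ℤ) (X : ℝ), s = 1 ∨ s = -1 → X₀ ≤ X →
      mS k (X ^ θ) {β : Fin k → ℝ | X / Real.log X ^ U <
        ‖(∑ p ∈ PD s ⌈X⌉₊ \ Ex s X (X ^ θ) (θ / m / (8 * k)), ∏ j, LL s p (pt (β j))) -
          ((PD s ⌈X⌉₊).card : ℂ) * E1.MT (im β)‖} ≤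
        ENNReal.ofReal (X ^ (k * θ) / Real.log X ^ U) := by
  classical
  obtain ⟨CN, hCN, hN⟩ := t_NS k
  obtain ⟨m₀, hE3⟩ := E1.E3 hk (le_refl (1 : ℝ))
  refine ⟨m₀ + 32 * k + 32, ?_⟩
  intro m hm U
  have hm1 : 1 ≤ m := by omega
  have hm0 : (0 : ℝ) < m := by exact_mod_cast hm1
  have hm32 : (32 : ℝ) * k + 32 ≤ m := by exact_mod_cast (by omega : 32 * k + 32 ≤ m)
  obtain ⟨C3, X3, hC3, hE3⟩ := hE3 m (by omega) hm1
  set η : ℝ := θ / m with hη
  have hη0 : 0 < η := by positivity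
  have hηθ : η ≤ θ / 4 := by
    rw [hη]
    exact div_le_div_of_nonneg_left hθ.le (by norm_num) (by linarith)
  have hk0 : (0 : ℝ) < k := by exact_mod_cast hk
  have hk1 : (1 : ℝ) ≤ k := by exact_mod_cast hk
  have hmη : η * m = θ := by rw [hη]; field_simp
  have hkη : k * η ≤ 1 / 32 := by
    have h1 : 32 * (k * η) ≤ 1 := by
      have : 32 * k * η ≤ m * η := mul_le_mul_of_nonneg_right (by linarith) hη0.le
      nlinarith
    linarith
  have hkη2 : (2 * k + 1) * η ≤ θ / 8 := by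
    have h1 : 8 * ((2 * k + 1) * η) ≤ θ := by
      have h2 : (16 * k + 8) * η ≤ m * η := mul_le_mul_of_nonneg_right (by linarith) hη0.le
      nlinarith
    linarith
  set δ : ℝ := η / (128 * k) with hδ
  have hδ0 : 0 < δ := by positivity
  obtain ⟨X1, hT⟩ := trans k hk hθ hθ1 hη0 hηθ
  set U' : ℕ := 3 * U + 1 with hU'
  obtain ⟨M₀, hS⟩ := sum_sq k U'
  -- large X
  have ev1 : ∀ᶠ X : ℝ in atTop, 4 * CN * Real.log X ^ U ≤ X ^ (θ / 2) := ev_log U _ (by positivity)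
  have ev2 : ∀ᶠ X : ℝ in atTop, 8 * Real.log X ^ U ≤ X ^ δ := ev_log U _ hδ0
  have ev3 : ∀ᶠ X : ℝ in atTop, (2 : ℝ) ^ (k + 7 + U') ≤ Real.log X :=
    Real.tendsto_log_atTop.eventually_ge_atTop _
  have ev4 : ∀ᶠ X : ℝ in atTop, (2 : ℝ) ^ (k + 9) * Real.log X ^ (3 * U) ≤ X ^ (θ / 2) := ev_log _ _ (by positivity)
  have ev5 : ∀ᶠ X : ℝ in atTop, 64 * C3 * Real.log X ^ (3 * U) ≤ X ^ (η / 4) := ev_log _ _ (by positivity)
  have ev6 : ∀ᶠ X : ℝ in atTop, 8 * Real.log X ^ U ≤ X ^ (1 / 2 : ℝ) := ev_log _ _ (by norm_num)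
  have ev7 : ∀ᶠ X : ℝ in atTop, max (max X3 2) 1 ≤ X ^ θ := (tendsto_rpow_atTop hθ).eventually_ge_atTop _
  have ev8 : ∀ᶠ X : ℝ in atTop, 4 ≤ Real.log X := Real.tendsto_log_atTop.eventually_ge_atTop _
  obtain ⟨X₀, hX₀⟩ := eventually_atTop.1 ((((ev1.and ev2).and (ev3.and ev4)).and ((ev5.and ev6).and (ev7.and ev8))).and
    ((eventually_ge_atTop X1).and (eventually_ge_atTop (2 * |M₀| + 4))))
  refine ⟨X₀, ?_⟩
  intro s X hs hX
  obtain ⟨⟨⟨⟨v1, v2⟩, v3, v4⟩, ⟨v5, v6⟩, v7, v8⟩, v9, v10⟩ := hX₀ X hX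
  have hMabs : 0 ≤ |M₀| := abs_nonneg _
  have hX4 : 4 ≤ X := by linarith
  have hX0 : 0 < X := by linarith
  have hX1 : 1 ≤ X := by linarith
  set A : ℝ := X ^ θ with hA
  set ell : ℝ := Real.log X with hell
  have hl0 : 0 < ell := by linarith
  have hl1 : 1 ≤ ell := by linarith
  have hA2 : 2 ≤ A := (le_max_right _ _).trans ((le_max_left _ _).trans v7)
  have hA3 : X3 ≤ A := (le_max_left _ _).trans ((le_max_left _ _).trans v7)
  have hA0 : 0 < A := by linarith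
  have hA1 : 1 ≤ A := by linarith
  have hAk : A ^ k = X ^ (k * θ) := by
    rw [hA, ← Real.rpow_natCast, ← Real.rpow_mul hX0.le]
    congr 1; ring
  have hAη : A ^ (1 / m : ℝ) = X ^ η := by
    rw [hA, ← Real.rpow_mul hX0.le, hη]
    congr 1; ring
  obtain ⟨-, hT⟩ := hT s X hs v9
  set N : ℕ := ⌊X ^ η⌋₊ with hNd
  obtain ⟨f1, f2, f3⟩ := floor_half (Real.one_le_rpow hX1 hη0.le : 1 ≤ X ^ η)
  rw [← hNd] at f1 f2 f3
  have hN0 : (0 : ℝ) < N := by exact_mod_cast f3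
  have hN1 : (1 : ℝ) ≤ N := by exact_mod_cast f3
  have hNk : (N : ℝ) ^ k ≤ X ^ (1 / 32 : ℝ) := by
    calc (N : ℝ) ^ k ≤ (X ^ η) ^ k := pow_le_pow_left₀ hN0.le f2 _
      _ = X ^ (k * η) := by rw [← Real.rpow_natCast, ← Real.rpow_mul hX0.le]; congr 1; ring
      _ ≤ X ^ (1 / 32 : ℝ) := Real.rpow_le_rpow_of_exponent_le hX1 hkη
  have hNk2 : (N : ℝ) ^ (2 * k + 1) ≤ X ^ (θ / 8) := by
    calc (N : ℝ) ^ (2 * k + 1) ≤ (X ^ η) ^ (2 * k + 1) := pow_le_pow_left₀ hN0.le f2 _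
      _ = X ^ ((2 * k + 1) * η) := by
          rw [← Real.rpow_natCast, ← Real.rpow_mul hX0.le]; congr 1; push_cast; ring
      _ ≤ X ^ (θ / 8) := Real.rpow_le_rpow_of_exponent_le hX1 hkη2
  set E : Finset ℕ := Ex s X A (η / (8 * k)) with hEd
  have g1 := hT N f1 f2 f3 (PD s ⌈X⌉₊) (fun _ => 1) (PD_Q hs X) (fun q _ => by simp)
  rw [← hδ] at g1
  simp only [one_mul] at g1
  -- the integer M
  have hce : 1 ≤ ⌈X⌉₊ := Nat.one_le_ceil_iff.2 hX0
  obtain ⟨M, hM⟩ : ∃ M : ℕ, ⌈X⌉₊ = M + 1 := ⟨⌈X⌉₊ - 1, by omega⟩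
  have hMX : (M : ℝ) ≤ X := by
    have h1 := Nat.ceil_lt_add_one hX0.le
    rw [hM] at h1
    push_cast at h1
    linarith
  have hMX2 : X / 2 ≤ M := by
    have h1 := Nat.le_ceil X
    rw [hM] at h1
    push_cast at h1
    linarith
  have hM0 : (0 : ℝ) < M := by linarith
  have hMM : M₀ ≤ M := by
    have := le_abs_self M₀
    linarith
  have hNk1 : 1 ≤ N ^ k := Nat.one_le_pow _ _ f3
  have hKM : ((N ^ k : ℕ) : ℝ) ≤ (M : ℝ) ^ (1 / 8 : ℝ) := by
    push_cast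
    refine hNk.trans ?_
    have h1 : X ^ (1 / 4 : ℝ) ≤ M := by
      have h2 : X ^ (1 / 4 : ℝ) ≤ X ^ (1 / 2 : ℝ) := Real.rpow_le_rpow_of_exponent_le hX1 (by norm_num)
      have h3 : X ^ (1 / 2 : ℝ) * X ^ (1 / 2 : ℝ) = X := by
        rw [← Real.rpow_add hX0]; norm_num
      have h4 : 2 ≤ X ^ (1 / 2 : ℝ) := by
        calc (2 : ℝ) = (4 : ℝ) ^ (1 / 2 : ℝ) := by
              rw [show (4 : ℝ) = 2 ^ (2 : ℝ) by norm_num, ← Real.rpow_mul (by norm_num)]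
              norm_num
          _ ≤ X ^ (1 / 2 : ℝ) := Real.rpow_le_rpow (by norm_num) hX4 (by norm_num)
      nlinarith
    calc X ^ (1 / 32 : ℝ) = (X ^ (1 / 4 : ℝ)) ^ (1 / 8 : ℝ) := by
          rw [← Real.rpow_mul hX0.le]; norm_num
      _ ≤ (M : ℝ) ^ (1 / 8 : ℝ) := Real.rpow_le_rpow (by positivity) h1 (by norm_num)
  have g2 := off_ms s k N M f3 hA0 (hS s M (N ^ k) hs hMM hNk1 hKM)
  rw [← hM] at g2
  have g3 := hE3 A N hA3 hA2 (by rw [hAη]; exact f1) (by rw [hAη]; exact f2) f3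
  rw [Real.rpow_one] at g3
  have hcd : ((PD s ⌈X⌉₊).card : ℝ) ≤ X := by
    rw [hM]
    refine le_trans ?_ hMX
    exact_mod_cast PD_card s M
  -- thresholds
  set W : ℝ := X / (4 * ell ^ U) with hW
  set W' : ℝ := 1 / (4 * ell ^ U) with hW'
  have hW0 : 0 < W := by positivity
  have hW0' : 0 < W' := by positivity
  have t1 : X ^ (1 - δ) / 2 ≤ X / (4 * ell ^ U) * (1 / 2) := by
    have h1 : X ^ (1 - δ) * X ^ δ = X := by rw [← Real.rpow_add hX0]; simp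
    have h2 : X ^ (1 - δ) * (4 * ell ^ U) ≤ X := by
      calc X ^ (1 - δ) * (4 * ell ^ U) ≤ X ^ (1 - δ) * X ^ δ := by
            apply mul_le_mul_of_nonneg_left _ (by positivity)
            have : 0 ≤ ell ^ U := by positivity
            linarith
        _ = X := h1
    have h3 : X ^ (1 - δ) ≤ X / (4 * ell ^ U) := by
      rw [le_div_iff₀ (by positivity)]
      exact h2
    linarith
  have t2 : (N : ℝ) ^ k * (N : ℝ) ^ k ≤ X / (4 * ell ^ U) * (1 / 2) := by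
    have h1 : (N : ℝ) ^ k * (N : ℝ) ^ k ≤ X ^ (1 / 16 : ℝ) := by
      calc (N : ℝ) ^ k * (N : ℝ) ^ k ≤ X ^ (1 / 32 : ℝ) * X ^ (1 / 32 : ℝ) := by gcongr
        _ = X ^ (1 / 16 : ℝ) := by rw [← Real.rpow_add hX0]; norm_num
    have h2 : X ^ (1 / 16 : ℝ) * (8 * ell ^ U) ≤ X := by
      calc X ^ (1 / 16 : ℝ) * (8 * ell ^ U) ≤ X ^ (1 / 2 : ℝ) * X ^ (1 / 2 : ℝ) :=
            mul_le_mul (Real.rpow_le_rpow_of_exponent_le hX1 (by norm_num)) v6 (by positivity) (by positivity)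
        _ = X := by rw [← Real.rpow_add hX0]; norm_num
    have h3 : X ^ (1 / 16 : ℝ) ≤ X / (8 * ell ^ U) := by
      rw [le_div_iff₀ (by positivity)]
      exact h2
    have h4 : X / (4 * ell ^ U) * (1 / 2) = X / (8 * ell ^ U) := by
      field_simp
      norm_num
    rw [h4]
    exact h1.trans h3
  set D1 : (Fin k → ℝ) → ℂ := fun β =>
    (∑ p ∈ PD s ⌈X⌉₊ \ E, ∏ j, LL s p (pt (β j))) - ∑ p ∈ PD s ⌈X⌉₊, ∏ j, PN s p N (β j) with hD1
  set D2 : (Fin k → ℝ) → ℂ := fun β => OD s k N ⌈X⌉₊ β with hD2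
  set D3 : (Fin k → ℝ) → ℂ := fun β => E1.SN k N β - E1.MT (im β) with hD3
  have hsub : {β : Fin k → ℝ | X / ell ^ U <
      ‖(∑ p ∈ PD s ⌈X⌉₊ \ E, ∏ j, LL s p (pt (β j))) - ((PD s ⌈X⌉₊).card : ℂ) * E1.MT (im β)‖} ⊆
      (Gd k A)ᶜ ∪ ({β | X ^ (1 - δ) / 2 < ‖D1 β‖} ∪ ({β | W < ‖D2 β‖} ∪ ({β | W' < ‖D3 β‖} ∩ Gd k A))) := by
    intro β hβ
    by_contra hcon
    simp only [mem_union, mem_compl_iff, mem_inter_iff, not_or, not_and, not_not] at hcon
    obtain ⟨h1, h2, h3, h4⟩ := hcon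
    have h2' : ‖D1 β‖ ≤ X ^ (1 - δ) / 2 := not_lt.1 h2
    have h3' : ‖D2 β‖ ≤ W := not_lt.1 h3
    have h4' : ‖D3 β‖ ≤ W' := by
      by_contra hh
      exact (h4 (not_le.1 hh)) h1
    have hd := diag hs k N ⌈X⌉₊ β
    set D4 : ℂ := (∑ p ∈ PD s ⌈X⌉₊, ∏ j, PN s p N (β j)) -
      (((PD s ⌈X⌉₊).card : ℂ) * E1.SN k N β + OD s k N ⌈X⌉₊ β) with hD4
    have e : (∑ p ∈ PD s ⌈X⌉₊ \ E, ∏ j, LL s p (pt (β j))) - ((PD s ⌈X⌉₊).card : ℂ) * E1.MT (im β) =
        D1 β + D4 + D2 β + ((PD s ⌈X⌉₊).card : ℂ) * D3 β := by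
      simp only [hD1, hD2, hD3, hD4]
      ring
    have h5 : ‖((PD s ⌈X⌉₊).card : ℂ) * D3 β‖ ≤ X / (4 * ell ^ U) := by
      rw [norm_mul, Complex.norm_natCast]
      calc ((PD s ⌈X⌉₊).card : ℝ) * ‖D3 β‖ ≤ X * W' := by gcongr
        _ = X / (4 * ell ^ U) := by rw [hW']; ring
    have h6 : ‖(∑ p ∈ PD s ⌈X⌉₊ \ E, ∏ j, LL s p (pt (β j))) - ((PD s ⌈X⌉₊).card : ℂ) * E1.MT (im β)‖ ≤
        X / ell ^ U := by
      rw [e]
      have k1 := norm_add_le (D1 β + D4 + D2 β) (((PD s ⌈X⌉₊).card : ℂ) * D3 β)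
      have k2 := norm_add_le (D1 β + D4) (D2 β)
      have k3 := norm_add_le (D1 β) D4
      have e2 : X / ell ^ U = 4 * (X / (4 * ell ^ U)) := by field_simp
      rw [e2]
      have hW'' : W = X / (4 * ell ^ U) := hW
      rw [hW''] at h3'
      have hp : 0 ≤ X / (4 * ell ^ U) := by positivity
      linarith
    exact absurd h6 (not_le.2 hβ)
  refine (measure_mono hsub).trans ?_
  refine (measure_union_le _ _).trans ((add_le_add_right ((measure_union_le _ _).trans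
    (add_le_add_right (measure_union_le _ _) _)) _).trans ?_)
  set R : ℝ := X ^ (k * θ) / (4 * ell ^ U) with hR
  have hR0 : 0 ≤ R := by positivity
  have m1 : mS k A (Gd k A)ᶜ ≤ ENNReal.ofReal R := by
    refine (hN A hA1).trans (ENNReal.ofReal_le_ofReal ?_)
    rw [hR, le_div_iff₀ (by positivity), ← hAk]
    have e1 : A ^ ((k : ℝ) - 1 / 2) = A ^ k / A ^ (1 / 2 : ℝ) := by
      rw [Real.rpow_sub hA0, Real.rpow_natCast]
    have e2 : A ^ (1 / 2 : ℝ) = X ^ (θ / 2) := by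
      rw [hA, ← Real.rpow_mul hX0.le]; congr 1; ring
    rw [e1, e2, mul_div_assoc', div_mul_eq_mul_div, div_le_iff₀ (by positivity)]
    calc CN * A ^ k * (4 * ell ^ U) = A ^ k * (4 * CN * ell ^ U) := by ring
      _ ≤ A ^ k * X ^ (θ / 2) := by gcongr
  have m2 : mS k A {β | X ^ (1 - δ) / 2 < ‖D1 β‖} ≤ ENNReal.ofReal R := by
    refine g1.trans (ENNReal.ofReal_le_ofReal ?_)
    rw [hR, le_div_iff₀ (by positivity)]
    have e1 : X ^ (k * θ - δ) * X ^ δ = X ^ (k * θ) := by rw [← Real.rpow_add hX0]; congr 1; ring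
    rw [← e1]
    apply mul_le_mul_of_nonneg_left _ (by positivity)
    have : 0 ≤ ell ^ U := by positivity
    linarith
  have m3 : mS k A {β | W < ‖D2 β‖} ≤ ENNReal.ofReal R := by
    refine (cheb (g := fun β => ‖D2 β‖) (meas_OD s k N ⌈X⌉₊).norm.aemeasurable hW0 g2).trans
      (ENNReal.ofReal_le_ofReal ?_)
    have hlM : ell / 2 ≤ Real.log M := by
      have h2 : X ^ (1 / 2 : ℝ) ≤ M := by
        have h3 : X ^ (1 / 2 : ℝ) * X ^ (1 / 2 : ℝ) = X := by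
          rw [← Real.rpow_add hX0]; norm_num
        have h4 : 2 ≤ X ^ (1 / 2 : ℝ) := by
          calc (2 : ℝ) = (4 : ℝ) ^ (1 / 2 : ℝ) := by
                rw [show (4 : ℝ) = 2 ^ (2 : ℝ) by norm_num, ← Real.rpow_mul (by norm_num)]
                norm_num
            _ ≤ X ^ (1 / 2 : ℝ) := Real.rpow_le_rpow (by norm_num) hX4 (by norm_num)
        nlinarith
      calc ell / 2 = Real.log (X ^ (1 / 2 : ℝ)) := by rw [Real.log_rpow hX0, hell]; ring
        _ ≤ Real.log M := Real.log_le_log (by positivity) h2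
    have hV : (M : ℝ) ^ 2 / Real.log M ^ U' ≤ X ^ 2 * 2 ^ U' / ell ^ U' := by
      have h1 : (ell / 2) ^ U' ≤ Real.log M ^ U' := pow_le_pow_left₀ (by positivity) hlM _
      calc (M : ℝ) ^ 2 / Real.log M ^ U' ≤ X ^ 2 / (ell / 2) ^ U' :=
            div_le_div₀ (by positivity) (pow_le_pow_left₀ hM0.le hMX 2) (by positivity) h1
        _ = _ := by rw [div_pow]; field_simp
    have hW2 : W ^ 2 = X ^ 2 / (16 * ell ^ (2 * U)) := by
      rw [hW, div_pow, mul_pow, ← pow_mul, mul_comm U 2]; norm_num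
    have hpow : (2 * A) ^ ((k : ℝ) - 1) = (2 * A) ^ k / (2 * A) := by
      rw [Real.rpow_sub_one (by positivity), Real.rpow_natCast]
    rw [hW2, div_le_iff₀ (by positivity)]
    have r1 : (2 * A) ^ k * ((M : ℝ) ^ 2 / Real.log M ^ U') ≤ R * (X ^ 2 / (16 * ell ^ (2 * U))) * (1 / 2) := by
      have e1 : R * (X ^ 2 / (16 * ell ^ (2 * U))) * (1 / 2) = A ^ k * X ^ 2 / (128 * ell ^ (3 * U)) := by
        have : ell ^ (3 * U) = ell ^ U * ell ^ (2 * U) := by rw [← pow_add]; congr 1; ring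
        rw [hR, ← hAk, this]
        field_simp
        norm_num
      rw [e1]
      calc (2 * A) ^ k * ((M : ℝ) ^ 2 / Real.log M ^ U') ≤ (2 * A) ^ k * (X ^ 2 * 2 ^ U' / ell ^ U') := by gcongr
        _ = A ^ k * X ^ 2 * (2 ^ k * 2 ^ U' / ell ^ U') := by rw [mul_pow]; ring
        _ ≤ A ^ k * X ^ 2 * (1 / (128 * ell ^ (3 * U))) := by
            apply mul_le_mul_of_nonneg_left _ (by positivity)
            rw [div_le_div_iff₀ (by positivity) (by positivity), one_mul, hU', pow_succ ell]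
            have h2 : (2 : ℝ) ^ k * 2 ^ (3 * U + 1) * 128 ≤ ell := by
              refine le_trans (le_of_eq ?_) v3
              rw [hU', pow_add 2 (k + 7), pow_add 2 k 7]
              norm_num
              ring
            calc (2 : ℝ) ^ k * 2 ^ (3 * U + 1) * (128 * ell ^ (3 * U)) =
                ell ^ (3 * U) * (2 ^ k * 2 ^ (3 * U + 1) * 128) := by ring
              _ ≤ ell ^ (3 * U) * ell := by gcongr
        _ = _ := by ring
    have r2 : 4 * (N : ℝ) * (2 * A) ^ ((k : ℝ) - 1) * ((M : ℝ) * (N : ℝ) ^ k) ^ 2 ≤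
        R * (X ^ 2 / (16 * ell ^ (2 * U))) * (1 / 2) := by
      have e1 : R * (X ^ 2 / (16 * ell ^ (2 * U))) * (1 / 2) = A ^ k * X ^ 2 / (128 * ell ^ (3 * U)) := by
        have : ell ^ (3 * U) = ell ^ U * ell ^ (2 * U) := by rw [← pow_add]; congr 1; ring
        rw [hR, ← hAk, this]
        field_simp
        norm_num
      rw [e1, hpow, le_div_iff₀ (by positivity)]
      have e2 : 4 * (N : ℝ) * ((2 * A) ^ k / (2 * A)) * ((M : ℝ) * (N : ℝ) ^ k) ^ 2 * (128 * ell ^ (3 * U)) =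
          (A ^ k * (M : ℝ) ^ 2) * ((2 ^ k * 256 * ell ^ (3 * U) * (N : ℝ) ^ (2 * k + 1)) / A) := by
        rw [mul_pow 2 A, mul_pow (M : ℝ), pow_succ (N : ℝ) (2 * k), ← pow_mul, mul_comm k 2]
        field_simp
        norm_num
      rw [e2]
      have e3 : (2 ^ k * 256 * ell ^ (3 * U) * (N : ℝ) ^ (2 * k + 1)) / A ≤ 1 := by
        rw [div_le_one hA0]
        have h2 : (2 : ℝ) ^ k * 256 * ell ^ (3 * U) ≤ X ^ (θ / 2) := by
          refine le_trans ?_ v4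
          have : (2 : ℝ) ^ (k + 9) = 2 ^ k * 512 := by rw [pow_add]; norm_num
          rw [this]
          have h3 : 0 ≤ (2 : ℝ) ^ k * ell ^ (3 * U) := by positivity
          nlinarith
        calc (2 : ℝ) ^ k * 256 * ell ^ (3 * U) * (N : ℝ) ^ (2 * k + 1) ≤ X ^ (θ / 2) * X ^ (θ / 8) := by gcongr
          _ = X ^ (θ / 2 + θ / 8) := by rw [← Real.rpow_add hX0]
          _ ≤ A := Real.rpow_le_rpow_of_exponent_le hX1 (by linarith)
      calc (A ^ k * (M : ℝ) ^ 2) * ((2 ^ k * 256 * ell ^ (3 * U) * (N : ℝ) ^ (2 * k + 1)) / A) ≤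
          (A ^ k * X ^ 2) * 1 := by gcongr
        _ = _ := mul_one _
    linarith
  have m4 : mS k A ({β | W' < ‖D3 β‖} ∩ Gd k A) ≤ ENNReal.ofReal R := by
    rw [← Measure.restrict_apply' (Gd_meas k A)]
    have hmD : Measurable D3 := (E1.meas_SN N).sub E1.meas_MT
    refine (cheb (g := fun β => ‖D3 β‖) hmD.norm.aemeasurable hW0' g3).trans
      (ENNReal.ofReal_le_ofReal ?_)
    have hW2 : W' ^ 2 = 1 / (16 * ell ^ (2 * U)) := by
      rw [hW', div_pow, mul_pow, ← pow_mul, mul_comm U 2]; norm_num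
    have e2 : A ^ ((k : ℝ) * 1 - 1 / (4 * m)) = A ^ k / X ^ (η / 4) := by
      rw [mul_one, Real.rpow_sub hA0, Real.rpow_natCast]
      congr 1
      rw [hA, ← Real.rpow_mul hX0.le, hη]
      congr 1
      field_simp
    rw [hW2, e2, div_le_iff₀ (by positivity), hR, ← hAk]
    have e3 : A ^ k / (4 * ell ^ U) * (1 / (16 * ell ^ (2 * U))) = A ^ k / (64 * ell ^ (3 * U)) := by
      have : ell ^ (3 * U) = ell ^ U * ell ^ (2 * U) := by rw [← pow_add]; congr 1; ring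
      rw [this]
      field_simp
      norm_num
    rw [e3, mul_div_assoc', div_le_div_iff₀ (by positivity) (by positivity)]
    calc C3 * A ^ k * (64 * ell ^ (3 * U)) = A ^ k * (64 * C3 * ell ^ (3 * U)) := by ring
      _ ≤ A ^ k * X ^ (η / 4) := by gcongr
  refine (add_le_add m1 (add_le_add m2 (add_le_add m3 m4))).trans ?_
  rw [← ENNReal.ofReal_add hR0 hR0, ← ENNReal.ofReal_add hR0 (by positivity),
    ← ENNReal.ofReal_add hR0 (by positivity)]
  apply ENNReal.ofReal_le_ofReal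
  apply le_of_eq
  rw [hR]
  field_simp
  norm_num

end

end Pool.Agent.V8H24.QS
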