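import Pool.Agent.Helper919.NonRes
import Pool.Agent.H343R2.EH.BVLog

set_option autoImplicit false

/-!
The real characters `l ↦ (D / l)` and the primitive characters inducing them, on average over squarefree `D`.
-/

namespace Pool.Agent.V8H24.QS

open Complex Finset
open Pool.Agent.H410R2 Pool.Agent.H398R2.BV

noncomputable section

/-- the function `l ↦ (D / l)` on odd `l` -/
def zro (D : ℤ) (l : ℕ) : ℤ := if Odd l then jacobiSym D l else 0

theorem zro_mod (D : ℤ) (l : ℕ) : zro D (l % (4 * D.natAbs)) = zro D l := by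
  unfold zro
  have hpar : Odd (l % (4 * D.natAbs)) ↔ Odd l := by
    rw [Nat.odd_iff, Nat.odd_iff]
    have h1 : 2 ∣ 4 * D.natAbs := ⟨2 * D.natAbs, by ring⟩
    rw [Nat.mod_mod_of_dvd _ h1]
  by_cases h : Odd l
  · rw [if_pos (hpar.2 h), if_pos h]
    exact (jacobiSym.mod_right D h).symm
  · rw [if_neg (fun h2 => h (hpar.1 h2)), if_neg h]

theorem zro_mul (D : ℤ) (a b : ℕ) : zro D (a * b) = zro D a * zro D b := by
  unfold zro
  by_cases ha : Odd a
  · by_cases hb : Odd b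
    · rw [if_pos ha, if_pos hb, if_pos (ha.mul hb)]
      have h1 : NeZero a := ⟨by rintro rfl; exact absurd ha (by decide)⟩
      have h2 : NeZero b := ⟨by rintro rfl; exact absurd hb (by decide)⟩
      exact jacobiSym.mul_right _ _ _
    · rw [if_neg hb, if_neg (fun h => hb (Nat.Odd.of_mul_left (by rwa [mul_comm] at h))), mul_zero]
  · rw [if_neg ha, if_neg (fun h => ha (Nat.Odd.of_mul_left h)), zero_mul]

theorem zro_mul_left (D E : ℤ) (l : ℕ) : zro (D * E) l = zro D l * zro E l := by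
  unfold zro
  split_ifs
  · exact jacobiSym.mul_left _ _ _
  · simp

theorem zro_one (D : ℤ) : zro D 1 = 1 := by
  unfold zro
  rw [if_pos odd_one, jacobiSym.one_right]

theorem zro_zero_iff {D : ℤ} (l : ℕ) : zro D l = 0 ↔ ¬ l.Coprime (4 * D.natAbs) := by
  unfold zro
  split_ifs with ho
  · have h1 : NeZero l := ⟨by rintro rfl; exact absurd ho (by decide)⟩
    rw [jacobiSym.eq_zero_iff_not_coprime]
    have h3 : Nat.Coprime l 4 := by
      have h3 : Nat.Coprime l 2 := by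
        rw [Nat.coprime_two_right]
        exact ho
      have : (4 : ℕ) = 2 ^ 2 := by norm_num
      rw [this]
      exact h3.pow_right 2
    rw [Nat.coprime_mul_iff_right]
    have h4 : D.gcd l = 1 ↔ l.Coprime D.natAbs := by
      rw [Int.gcd_comm]
      exact Iff.rfl
    rw [Ne, h4]
    tauto
  · simp only [true_iff]
    intro h
    have h1 := Nat.Coprime.coprime_mul_right_right h
    have h2 : Nat.Coprime l 2 := Nat.Coprime.coprime_dvd_right (by norm_num) h1
    rw [Nat.coprime_two_right] at h2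
    exact ho h2

/-- the character `l ↦ (D / l)` modulo `4|D|` -/
def zchi (D : ℤ) [NeZero (4 * D.natAbs)] : DirichletCharacter ℂ (4 * D.natAbs) where
  toFun a := ((zro D a.val : ℤ) : ℂ)
  map_one' := by
    rw [ZMod.val_one_eq_one_mod, zro_mod, zro_one]
    simp
  map_mul' a b := by
    rw [ZMod.val_mul, zro_mod, zro_mul]
    push_cast
    ring
  map_nonunit' a ha := by
    have h : zro D a.val = 0 := by
      rw [zro_zero_iff]
      intro h2
      apply ha
      rw [← ZMod.natCast_zmod_val a]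
      exact (ZMod.isUnit_iff_coprime a.val (4 * D.natAbs)).2 h2
    rw [h]
    simp

theorem zchi_natCast (D : ℤ) [NeZero (4 * D.natAbs)] (l : ℕ) :
    zchi D (l : ZMod (4 * D.natAbs)) = ((zro D l : ℤ) : ℂ) := by
  change ((zro D ((l : ZMod (4 * D.natAbs)).val) : ℤ) : ℂ) = _
  rw [ZMod.val_natCast, zro_mod]

theorem zchi_ne_one {D : ℤ} [NeZero (4 * D.natAbs)] (h : ¬ IsSquare D) : zchi D ≠ 1 := by
  obtain ⟨d, hd, hj⟩ := Helper919.exists_jacobi_neg_one D h
  intro h1
  have h2 := zchi_natCast D d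
  have h3 : zro D d = -1 := by
    unfold zro
    rw [if_pos hd, hj]
  rw [h3] at h2
  have h4 : IsUnit (d : ZMod (4 * D.natAbs)) := by
    by_contra hu
    have h5 := (zchi D).map_nonunit hu
    rw [h5] at h2
    norm_num at h2
  rw [h1, MulChar.one_apply h4] at h2
  norm_num at h2

theorem zro_norm (D : ℤ) (l : ℕ) : ‖((zro D l : ℤ) : ℂ)‖ ≤ 1 := by
  unfold zro
  split_ifs
  · rcases jacobiSym.trichotomy D l with h | h | h <;> rw [h] <;> simp
  · simp

/-- the primitive character inducing `l ↦ (D / l)` -/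
theorem prim_of {D : ℤ} (h : ¬ IsSquare D) : ∃ σ : (Σ f : ℕ, DirichletCharacter ℂ f),
    2 ≤ σ.1 ∧ σ.1 ∣ 4 * D.natAbs ∧ σ.2 ∈ Prim σ.1 ∧
      ∀ l : ℕ, l.Coprime (4 * D.natAbs) → σ.2 (l : ZMod σ.1) = ((zro D l : ℤ) : ℂ) := by
  have hD0 : D ≠ 0 := by
    rintro rfl
    exact h ⟨0, by simp⟩
  have hne : NeZero (4 * D.natAbs) := ⟨by
    have := Int.natAbs_ne_zero.2 hD0
    omega⟩
  have hc : (zchi D).conductor ≠ 1 := fun hc => zchi_ne_one h
    (DirichletCharacter.eq_one_iff_conductor_eq_one.2 hc)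
  have hc0 : (zchi D).conductor ≠ 0 := DirichletCharacter.conductor_ne_zero (zchi D)
  refine ⟨⟨(zchi D).conductor, (zchi D).primitiveCharacter⟩, ?_,
    DirichletCharacter.conductor_dvd_level (zchi D), ?_, ?_⟩
  · show 2 ≤ (zchi D).conductor
    omega
  · classical
    unfold Prim
    rw [mem_filter]
    exact ⟨mem_univ _, DirichletCharacter.primitiveCharacter_isPrimitive (zchi D)⟩
  · intro l hl
    have h1 : IsCoprime ((l : ℕ) : ℤ) ((4 * D.natAbs : ℕ) : ℤ) := Nat.isCoprime_iff_coprime.2 hl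
    have h2 := DirichletCharacter.primitiveCharacter_apply_of_isCoprime (zchi D) h1
    rw [← zchi_natCast D l]
    simpa using h2

open Classical in
/-- the primitive character inducing `l ↦ (D / l)` -/
def pc (D : ℤ) : Σ f : ℕ, DirichletCharacter ℂ f :=
  if h : IsSquare D then ⟨0, 1⟩ else (prim_of h).choose

theorem pc_spec {D : ℤ} (h : ¬ IsSquare D) : 2 ≤ (pc D).1 ∧ (pc D).1 ∣ 4 * D.natAbs ∧ (pc D).2 ∈ Prim (pc D).1 ∧
      ∀ l : ℕ, l.Coprime (4 * D.natAbs) → (pc D).2 (l : ZMod (pc D).1) = ((zro D l : ℤ) : ℂ) := by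
  unfold pc
  rw [dif_neg h]
  exact (prim_of h).choose_spec

theorem sqf_eq {a b : ℕ} (ha : Squarefree a) (hb : Squarefree b) (h : IsSquare (a * b)) : a = b := by
  have ha0 := ha.ne_zero
  have hb0 := hb.ne_zero
  obtain ⟨c, hc⟩ := h
  have hc0 : c ≠ 0 := by
    rintro rfl
    rw [mul_zero] at hc
    rcases mul_eq_zero.1 hc with h | h
    · exact ha0 h
    · exact hb0 h
  apply Nat.eq_of_factorization_eq ha0 hb0
  intro p
  have h1 := ha.natFactorization_le_one p
  have h2 := hb.natFactorization_le_one p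
  have h3 : a.factorization p + b.factorization p = 2 * c.factorization p := by
    have := congrArg (fun n => n.factorization p) hc
    simp only [Nat.factorization_mul ha0 hb0, Nat.factorization_mul hc0 hc0, Finsupp.coe_add,
      Pi.add_apply] at this
    omega
  omega

theorem not_sq_of_sqf {n : ℕ} (hn : Squarefree n) (h2 : 2 ≤ n) {t : ℤ} (ht : t = 1 ∨ t = -1) :
    ¬ IsSquare (t * (n : ℤ)) := by
  rintro ⟨c, hc⟩
  rcases ht with rfl | rfl
  · rw [one_mul] at hc
    have h3 : n = c.natAbs * c.natAbs := by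
      have := congrArg Int.natAbs hc
      rw [Int.natAbs_mul, Int.natAbs_natCast] at this
      exact this
    have h4 : IsUnit c.natAbs := hn _ ⟨1, by rw [mul_one]; exact h3⟩
    rw [Nat.isUnit_iff] at h4
    rw [h4] at h3
    omega
  · have h3 : (0 : ℤ) ≤ c * c := mul_self_nonneg c
    have h4 : (0 : ℤ) < n := by exact_mod_cast (by omega : 0 < n)
    linarith

theorem pc_inj {t : ℤ} (ht : t = 1 ∨ t = -1) {m n : ℕ} (hm : Squarefree m) (hn : Squarefree n) (hm2 : 2 ≤ m)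
    (hn2 : 2 ≤ n) (h : pc (t * (m : ℤ)) = pc (t * (n : ℤ))) : m = n := by
  obtain ⟨-, -, -, h1⟩ := pc_spec (not_sq_of_sqf hm hm2 ht)
  obtain ⟨-, -, -, h2⟩ := pc_spec (not_sq_of_sqf hn hn2 ht)
  apply sqf_eq hm hn
  by_contra hsq
  have hsq2 : ¬ IsSquare ((t * (m : ℤ)) * (t * (n : ℤ))) := by
    have e : (t * (m : ℤ)) * (t * (n : ℤ)) = ((m * n : ℕ) : ℤ) := by
      rcases ht with rfl | rfl <;> push_cast <;> ring
    rw [e]
    intro h3
    apply hsq
    obtain ⟨c, hc⟩ := h3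
    refine ⟨c.natAbs, ?_⟩
    have := congrArg Int.natAbs hc
    rw [Int.natAbs_mul, Int.natAbs_natCast] at this
    exact this
  obtain ⟨d, hd, hj⟩ := Helper919.exists_jacobi_neg_one _ hsq2
  have h3 : zro ((t * (m : ℤ)) * (t * (n : ℤ))) d = -1 := by
    unfold zro
    rw [if_pos hd, hj]
  rw [zro_mul_left] at h3
  have hz1 : zro (t * (m : ℤ)) d ≠ 0 := by
    intro h0
    rw [h0, zero_mul] at h3
    norm_num at h3
  have hz2 : zro (t * (n : ℤ)) d ≠ 0 := by
    intro h0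
    rw [h0, mul_zero] at h3
    norm_num at h3
  have c1 : d.Coprime (4 * (t * (m : ℤ)).natAbs) := by
    by_contra hc
    exact hz1 ((zro_zero_iff d).2 hc)
  have c2 : d.Coprime (4 * (t * (n : ℤ)).natAbs) := by
    by_contra hc
    exact hz2 ((zro_zero_iff d).2 hc)
  have e1 := h1 d c1
  have e2 := h2 d c2
  rw [h, e2] at e1
  have e3 : zro (t * (n : ℤ)) d = zro (t * (m : ℤ)) d := by exact_mod_cast e1
  rw [e3] at h3
  nlinarith [mul_self_nonneg (zro (t * (m : ℤ)) d)]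

/-- on average over squarefree `n` -/
theorem sum_prim (Y : ℝ) (K : ℕ) {t : ℤ} (ht : t = 1 ∨ t = -1) :
    ∑ n ∈ (Icc 2 K).filter Squarefree, (1 / (n : ℝ)) * ‖psiLog Y (pc (t * (n : ℤ))).1 (pc (t * (n : ℤ))).2‖ ≤
      4 * ∑ f ∈ Icc 2 (4 * K), (1 / (Nat.totient f : ℝ)) * ∑ ψ ∈ Prim f, ‖psiLog Y f ψ‖ := by
  classical
  have h1 : ∀ n ∈ (Icc 2 K).filter Squarefree,
      (1 / (n : ℝ)) * ‖psiLog Y (pc (t * (n : ℤ))).1 (pc (t * (n : ℤ))).2‖ ≤
      4 * ((1 / (Nat.totient (pc (t * (n : ℤ))).1 : ℝ)) *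
        ‖psiLog Y (pc (t * (n : ℤ))).1 (pc (t * (n : ℤ))).2‖) := by
    intro n hn
    rw [mem_filter, mem_Icc] at hn
    obtain ⟨a1, a2, -, -⟩ := pc_spec (not_sq_of_sqf hn.2 hn.1.1 ht)
    have hn0 : (0 : ℝ) < n := by exact_mod_cast (by omega : 0 < n)
    have e : (t * (n : ℤ)).natAbs = n := by
      rcases ht with rfl | rfl <;> simp
    rw [e] at a2
    have h2 : (pc (t * (n : ℤ))).1 ≤ 4 * n := Nat.le_of_dvd (by omega) a2
    have h3 : (Nat.totient (pc (t * (n : ℤ))).1 : ℝ) ≤ 4 * n := by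
      exact_mod_cast (Nat.totient_le _).trans h2
    have h4 : (0 : ℝ) < Nat.totient (pc (t * (n : ℤ))).1 := by
      exact_mod_cast Nat.totient_pos.2 (by omega)
    rw [← mul_assoc]
    apply mul_le_mul_of_nonneg_right _ (norm_nonneg _)
    rw [mul_one_div, div_le_div_iff₀ hn0 h4]
    linarith
  refine (sum_le_sum h1).trans ?_
  rw [← mul_sum]
  apply mul_le_mul_of_nonneg_left _ (by norm_num)
  have e1 : ∑ f ∈ Icc 2 (4 * K), (1 / (Nat.totient f : ℝ)) * ∑ ψ ∈ Prim f, ‖psiLog Y f ψ‖ =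
      ∑ σ ∈ (Icc 2 (4 * K)).sigma Prim, (1 / (Nat.totient σ.1 : ℝ)) * ‖psiLog Y σ.1 σ.2‖ := by
    rw [sum_sigma]
    refine sum_congr rfl fun f _ => ?_
    rw [mul_sum]
  rw [e1]
  have e2 : ∑ n ∈ (Icc 2 K).filter Squarefree, (1 / (Nat.totient (pc (t * (n : ℤ))).1 : ℝ)) *
        ‖psiLog Y (pc (t * (n : ℤ))).1 (pc (t * (n : ℤ))).2‖ =
      ∑ σ ∈ ((Icc 2 K).filter Squarefree).image (fun n : ℕ => pc (t * (n : ℤ))),
        (1 / (Nat.totient σ.1 : ℝ)) * ‖psiLog Y σ.1 σ.2‖ := by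
    rw [sum_image]
    intro m hm n hn hmn
    rw [mem_coe, mem_filter, mem_Icc] at hm hn
    exact pc_inj ht hm.2 hn.2 hm.1.1 hn.1.1 hmn
  rw [e2]
  apply sum_le_sum_of_subset_of_nonneg
  · intro σ hσ
    rw [mem_image] at hσ
    obtain ⟨n, hn, rfl⟩ := hσ
    rw [mem_filter, mem_Icc] at hn
    obtain ⟨a1, a2, a3, -⟩ := pc_spec (not_sq_of_sqf hn.2 hn.1.1 ht)
    have e : (t * (n : ℤ)).natAbs = n := by
      rcases ht with rfl | rfl <;> simp
    rw [e] at a2
    rw [mem_sigma, mem_Icc]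
    exact ⟨⟨a1, (Nat.le_of_dvd (by omega) a2).trans (by omega)⟩, a3⟩
  · intro σ _ _
    positivity

end

end Pool.Agent.V8H24.QS
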