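import Pool.Agent.V8H24.QS.Abel
import Pool.Agent.N879.QM.Coef

set_option autoImplicit false

/-!
Divisor functions, and the mean square of the off-diagonal coefficients.
-/

namespace Pool.Agent.V8H24.QS

open Complex hiding im
open Finset Filter Topology
open Pool.Agent.N879.QM (Is Rp vl ch tup)

noncomputable section

/-- the number of divisors -/
def tau (n : ℕ) : ℝ := (n.divisors.card : ℝ)

theorem tau_nonneg (n : ℕ) : 0 ≤ tau n := Nat.cast_nonneg _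

theorem tau_mul (m n : ℕ) : tau (m * n) ≤ tau m * tau n := by
  unfold tau
  rw [Nat.divisors_mul]
  exact_mod_cast Finset.card_mul_le

/-- `∑ d(m)^c / m` -/
def Dc (c K : ℕ) : ℝ := ∑ m ∈ Icc 1 K, tau m ^ c * (1 / (m : ℝ))

theorem sum_antidiag_le (K : ℕ) (g : ℕ × ℕ → ℝ) (hg : ∀ x, 0 ≤ g x) :
    ∑ m ∈ Icc 1 K, ∑ x ∈ m.divisorsAntidiagonal, g x ≤ ∑ x ∈ Icc 1 K ×ˢ Icc 1 K, g x := by
  classical
  rw [← sum_biUnion]
  · apply sum_le_sum_of_subset_of_nonneg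
    · intro x hx
      rw [mem_biUnion] at hx
      obtain ⟨m, hm, hx⟩ := hx
      rw [mem_Icc] at hm
      rw [Nat.mem_divisorsAntidiagonal] at hx
      have hm0 : m ≠ 0 := by omega
      have h1 : x.1 ∣ m := ⟨x.2, hx.1.symm⟩
      have h2 : x.2 ∣ m := ⟨x.1, by rw [mul_comm]; exact hx.1.symm⟩
      rw [mem_product, mem_Icc, mem_Icc]
      have a1 := Nat.pos_of_dvd_of_pos h1 (by omega)
      have a2 := Nat.pos_of_dvd_of_pos h2 (by omega)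
      have b1 := Nat.le_of_dvd (by omega) h1
      have b2 := Nat.le_of_dvd (by omega) h2
      exact ⟨⟨a1, b1.trans hm.2⟩, ⟨a2, b2.trans hm.2⟩⟩
    · intro x _ _
      exact hg x
  · intro m _ m' _ hne
    rw [Function.onFun, disjoint_left]
    intro x hx hx'
    rw [Nat.mem_divisorsAntidiagonal] at hx hx'
    exact hne (hx.1.symm.trans hx'.1)

theorem Dc_nonneg (c K : ℕ) : 0 ≤ Dc c K :=
  sum_nonneg fun m _ => mul_nonneg (pow_nonneg (tau_nonneg m) c) (by positivity)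

theorem Dc_succ (c K : ℕ) : Dc (c + 1) K ≤ Dc c K ^ 2 := by
  have h1 : ∀ m ∈ Icc 1 K, tau m ^ (c + 1) * (1 / (m : ℝ)) ≤ ∑ x ∈ m.divisorsAntidiagonal,
      (tau x.1 ^ c * (1 / (x.1 : ℝ))) * (tau x.2 ^ c * (1 / (x.2 : ℝ))) := by
    intro m hm
    have h2 : (m.divisorsAntidiagonal.card : ℝ) = tau m := by
      unfold tau
      rw [← Nat.map_div_right_divisors, card_map]
    calc tau m ^ (c + 1) * (1 / (m : ℝ)) = ∑ x ∈ m.divisorsAntidiagonal, tau m ^ c * (1 / (m : ℝ)) := by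
          rw [sum_const, nsmul_eq_mul, h2]
          ring
      _ ≤ _ := by
          refine sum_le_sum fun x hx => ?_
          rw [Nat.mem_divisorsAntidiagonal] at hx
          rw [← hx.1]
          have h3 := pow_le_pow_left₀ (tau_nonneg (x.1 * x.2)) (tau_mul x.1 x.2) c
          rw [Nat.cast_mul]
          calc tau (x.1 * x.2) ^ c * (1 / ((x.1 : ℝ) * x.2)) ≤ (tau x.1 * tau x.2) ^ c * (1 / ((x.1 : ℝ) * x.2)) :=
                mul_le_mul_of_nonneg_right h3 (by positivity)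
            _ = _ := by
                rw [mul_pow, ← one_div_mul_one_div]
                ring
  calc Dc (c + 1) K ≤ ∑ m ∈ Icc 1 K, ∑ x ∈ m.divisorsAntidiagonal,
      (tau x.1 ^ c * (1 / (x.1 : ℝ))) * (tau x.2 ^ c * (1 / (x.2 : ℝ))) := sum_le_sum h1
    _ ≤ ∑ x ∈ Icc 1 K ×ˢ Icc 1 K, (tau x.1 ^ c * (1 / (x.1 : ℝ))) * (tau x.2 ^ c * (1 / (x.2 : ℝ))) := by
        apply sum_antidiag_le
        intro x
        have := tau_nonneg x.1
        have := tau_nonneg x.2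
        positivity
    _ = Dc c K ^ 2 := by
        rw [sum_product, sq]
        unfold Dc
        rw [sum_mul_sum]

theorem Dc_le (c K : ℕ) : Dc c K ≤ (1 + Real.log K) ^ (2 ^ c) := by
  have hl := Real.log_natCast_nonneg K
  induction c with
  | zero =>
    unfold Dc
    simp only [pow_zero, one_mul, pow_one]
    exact sum_inv_le
  | succ c ih =>
    refine (Dc_succ c K).trans ?_
    calc Dc c K ^ 2 ≤ ((1 + Real.log K) ^ (2 ^ c)) ^ 2 := pow_le_pow_left₀ (Dc_nonneg c K) ih 2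
      _ = _ := by rw [← pow_mul, ← pow_succ]

/-- the mean square of the off-diagonal coefficients -/
theorem sum_sq (k U : ℕ) : ∃ M₀ : ℝ, ∀ (s : ℤ) (M K : ℕ), s = 1 ∨ s = -1 → M₀ ≤ M → 1 ≤ K →
    (K : ℝ) ≤ (M : ℝ) ^ (1 / 8 : ℝ) →
    ∑ n ∈ NSq K, tau n ^ k * (1 / (n : ℝ)) * ‖S0 s n (M + 1)‖ ^ 2 ≤ (M : ℝ) ^ 2 / Real.log M ^ U := by
  obtain ⟨M₁, hS⟩ := sum_S0 (2 * U + 2 ^ (2 * k + 1))
  have ev1 : ∀ᶠ X : ℝ in atTop, 2 ≤ Real.log X := Real.tendsto_log_atTop.eventually_ge_atTop _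
  obtain ⟨M₀, hM₀⟩ := eventually_atTop.1 (ev1.and ((eventually_ge_atTop M₁).and (eventually_ge_atTop 4)))
  refine ⟨M₀, ?_⟩
  intro s M K hs hM hK hKM
  obtain ⟨v1, v2, v3⟩ := hM₀ M hM
  have hM0 : (0 : ℝ) < M := by linarith
  have hM1 : (1 : ℝ) ≤ M := by linarith
  set L := Real.log M with hL
  have hL0 : 0 < L := by linarith
  have hK0 : (0 : ℝ) < K := by exact_mod_cast hK
  have hKM' : (K : ℝ) ≤ M := by
    refine hKM.trans ?_
    calc (M : ℝ) ^ (1 / 8 : ℝ) ≤ (M : ℝ) ^ (1 : ℝ) := Real.rpow_le_rpow_of_exponent_le hM1 (by norm_num)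
      _ = M := Real.rpow_one _
  have hlK : Real.log K ≤ L := Real.log_le_log hK0 hKM'
  have hlK0 := Real.log_natCast_nonneg K
  have h1 := hS s M K hs v2 hK hKM
  set V := 2 * U + 2 ^ (2 * k + 1) with hV
  -- Cauchy-Schwarz
  have h2 := sum_mul_sq_le_sq_mul_sq (NSq K) (fun n => tau n ^ k * √(1 / (n : ℝ)) * ‖S0 s n (M + 1)‖)
    (fun n => √(1 / (n : ℝ)) * ‖S0 s n (M + 1)‖)
  have e1 : ∑ n ∈ NSq K, tau n ^ k * √(1 / (n : ℝ)) * ‖S0 s n (M + 1)‖ * (√(1 / (n : ℝ)) * ‖S0 s n (M + 1)‖) =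
      ∑ n ∈ NSq K, tau n ^ k * (1 / (n : ℝ)) * ‖S0 s n (M + 1)‖ ^ 2 := by
    refine sum_congr rfl fun n _ => ?_
    have h3 : √(1 / (n : ℝ)) * √(1 / (n : ℝ)) = 1 / (n : ℝ) := Real.mul_self_sqrt (by positivity)
    calc _ = tau n ^ k * (√(1 / (n : ℝ)) * √(1 / (n : ℝ))) * ‖S0 s n (M + 1)‖ ^ 2 := by ring
      _ = _ := by rw [h3]
  rw [e1] at h2
  have h3 : ∑ n ∈ NSq K, (tau n ^ k * √(1 / (n : ℝ)) * ‖S0 s n (M + 1)‖) ^ 2 ≤ (M : ℝ) ^ 2 * (2 * L) ^ (2 ^ (2 * k)) := by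
    have h4 : ∀ n ∈ NSq K, (tau n ^ k * √(1 / (n : ℝ)) * ‖S0 s n (M + 1)‖) ^ 2 ≤
        (M : ℝ) ^ 2 * (tau n ^ (2 * k) * (1 / (n : ℝ))) := by
      intro n _
      have h5 : √(1 / (n : ℝ)) ^ 2 = 1 / (n : ℝ) := Real.sq_sqrt (by positivity)
      have h6 : ‖S0 s n (M + 1)‖ ^ 2 ≤ (M : ℝ) ^ 2 := pow_le_pow_left₀ (norm_nonneg _) (S0_triv s n M) 2
      have h7 : 0 ≤ tau n ^ (2 * k) * (1 / (n : ℝ)) := mul_nonneg (pow_nonneg (tau_nonneg n) _) (by positivity)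
      calc (tau n ^ k * √(1 / (n : ℝ)) * ‖S0 s n (M + 1)‖) ^ 2 =
          (tau n ^ (2 * k) * √(1 / (n : ℝ)) ^ 2) * ‖S0 s n (M + 1)‖ ^ 2 := by
            rw [mul_pow, mul_pow, ← pow_mul, mul_comm k 2]
        _ ≤ (tau n ^ (2 * k) * (1 / (n : ℝ))) * (M : ℝ) ^ 2 := by
            rw [h5]
            exact mul_le_mul_of_nonneg_left h6 h7
        _ = _ := mul_comm _ _
    refine (sum_le_sum h4).trans ?_
    rw [← mul_sum]
    apply mul_le_mul_of_nonneg_left _ (by positivity)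
    calc ∑ n ∈ NSq K, tau n ^ (2 * k) * (1 / (n : ℝ)) ≤ Dc (2 * k) K :=
          sum_le_sum_of_subset_of_nonneg (NSq_sub K) fun n _ _ =>
            mul_nonneg (pow_nonneg (tau_nonneg n) _) (by positivity)
      _ ≤ (1 + Real.log K) ^ (2 ^ (2 * k)) := Dc_le _ _
      _ ≤ (2 * L) ^ (2 ^ (2 * k)) := pow_le_pow_left₀ (by linarith) (by linarith) _
  have h4 : ∑ n ∈ NSq K, (√(1 / (n : ℝ)) * ‖S0 s n (M + 1)‖) ^ 2 ≤ M * (M / L ^ V) := by
    have h5 : ∀ n ∈ NSq K, (√(1 / (n : ℝ)) * ‖S0 s n (M + 1)‖) ^ 2 ≤ M * ((1 / (n : ℝ)) * ‖S0 s n (M + 1)‖) := by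
      intro n _
      have h6 : √(1 / (n : ℝ)) ^ 2 = 1 / (n : ℝ) := Real.sq_sqrt (by positivity)
      rw [mul_pow, h6, sq]
      have h7 := S0_triv s n M
      have h8 : 0 ≤ 1 / (n : ℝ) := by positivity
      have h9 := norm_nonneg (S0 s n (M + 1))
      calc 1 / (n : ℝ) * (‖S0 s n (M + 1)‖ * ‖S0 s n (M + 1)‖) ≤ 1 / (n : ℝ) * (‖S0 s n (M + 1)‖ * M) := by gcongr
        _ = _ := by ring
    refine (sum_le_sum h5).trans ?_
    rw [← mul_sum]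
    exact mul_le_mul_of_nonneg_left h1 hM0.le
  have h5 : (∑ n ∈ NSq K, tau n ^ k * (1 / (n : ℝ)) * ‖S0 s n (M + 1)‖ ^ 2) ^ 2 ≤
      ((M : ℝ) ^ 2 / L ^ U) ^ 2 := by
    refine h2.trans ((mul_le_mul h3 h4 (sum_nonneg fun n _ => sq_nonneg _) (by positivity)).trans ?_)
    have e2 : ((M : ℝ) ^ 2 / L ^ U) ^ 2 = (M : ℝ) ^ 4 / L ^ (2 * U) := by
      rw [div_pow, ← pow_mul, ← pow_mul, mul_comm U 2]
    have e3 : (M : ℝ) ^ 2 * (2 * L) ^ (2 ^ (2 * k)) * (M * (M / L ^ V)) =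
        (M : ℝ) ^ 4 * (2 * L) ^ (2 ^ (2 * k)) / L ^ V := by
      field_simp
    rw [e2, e3, div_le_div_iff₀ (by positivity) (by positivity)]
    have e4 : L ^ V = L ^ (2 * U) * (L * L) ^ (2 ^ (2 * k)) := by
      rw [hV, pow_add, pow_succ 2 (2 * k), mul_comm (2 ^ (2 * k)) 2]
      congr 1
      rw [pow_mul, sq]
    rw [e4]
    have h6 : (2 * L) ^ (2 ^ (2 * k)) ≤ (L * L) ^ (2 ^ (2 * k)) :=
      pow_le_pow_left₀ (by positivity) (mul_le_mul_of_nonneg_right v1 hL0.le) _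
    calc (M : ℝ) ^ 4 * (2 * L) ^ (2 ^ (2 * k)) * L ^ (2 * U) ≤
        (M : ℝ) ^ 4 * (L * L) ^ (2 ^ (2 * k)) * L ^ (2 * U) := by gcongr
      _ = _ := by ring
  exact le_of_sq_le_sq h5 (by positivity)

end

end Pool.Agent.V8H24.QS
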