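import Pool.Agent.N879.QM.Eul

set_option autoImplicit false

/-!
The Euler product for the moments over prime conductors: the same as `A_k` without the factor of the squarefree sieve.
-/

namespace Pool.Agent.V8H24.QS.E1

open Complex hiding im
open Filter Topology
open Pool.Agent.N879.QM Pool.Agent.N879.QM.Eul
open scoped BigOperators

noncomputable section

/-- local factor at `p` -/
def loc {k : ℕ} (z : Fin k → ℂ) (p : ℕ) : ℂ :=
  (∏ r : Pr k, (1 - (p : ℂ) ^ (-(1 + z r.1.1 + z r.1.2)))) *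
    (1 / 2 * ((∏ j, (1 - (p : ℂ) ^ (-(1 / 2 + z j)))⁻¹) + ∏ j, (1 + (p : ℂ) ^ (-(1 / 2 + z j)))⁻¹))

/-- the Euler product -/
def Ak {k : ℕ} (z : Fin k → ℂ) : ℂ := ∏' p : Nat.Primes, loc z p

/-- the main term -/
def MT {k : ℕ} (z : Fin k → ℂ) : ℂ := Ak z * ∏ r : Pr k, riemannZeta (1 + z r.1.1 + z r.1.2)

/-- `m ↦ ∑_{n_1 ⋯ n_k = m²} ∏ n_j^{-s_j}` -/
def gA {k : ℕ} (β : Fin k → ℝ) : ArithmeticFunction ℂ :=
  ⟨fun m => if m = 0 then 0 else ∑ n ∈ Nat.finMulAntidiag k (m ^ 2), cx n β, by simp⟩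

/-- the coefficients of the Euler product -/
def al {k : ℕ} (β : Fin k → ℝ) : ArithmeticFunction ℂ := gA β * ∏ r : Pr k, muA (pp β r)

theorem gA_apply {k : ℕ} (β : Fin k → ℝ) {m : ℕ} (hm : m ≠ 0) :
    gA β m = T (sx β) (m ^ 2) := by
  show (if m = 0 then 0 else ∑ n ∈ Nat.finMulAntidiag k (m ^ 2), cx n β) = _
  rw [if_neg hm]
  rfl

theorem gA_mult {k : ℕ} (β : Fin k → ℝ) : (gA β).IsMultiplicative := by
  rw [ArithmeticFunction.IsMultiplicative.iff_ne_zero]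
  refine ⟨?_, fun {m n} hm hn hmn => ?_⟩
  · rw [gA_apply β one_ne_zero, one_pow, (T_mult _).map_one]
  · rw [gA_apply β (mul_ne_zero hm hn), gA_apply β hm, gA_apply β hn, mul_pow,
      (T_mult _).map_mul_of_coprime (Nat.Coprime.pow 2 2 hmn)]

theorem al_mult {k : ℕ} (β : Fin k → ℝ) : (al β).IsMultiplicative := by
  unfold al
  refine (gA_mult β).mul ?_
  exact Finset.prod_induction _ (fun f : ArithmeticFunction ℂ => f.IsMultiplicative)
    (fun a b ha hb => ha.mul hb) ArithmeticFunction.isMultiplicative_one fun r _ => muA_mult _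
/-- the first factor -/
def G {k : ℕ} (β : Fin k → ℝ) (p : ℕ) : PowerSeries ℂ := bell p (gA β)

theorem bell_al {k : ℕ} (β : Fin k → ℝ) {p : ℕ} (hp : p.Prime) :
    bell p (al β) = G β p * Mu β p := by
  unfold al G Mu
  rw [bell_mul hp, bell_prod hp]
  congr 1
  exact Finset.prod_congr rfl fun r _ => bell_mu hp _

theorem coeff_G {k : ℕ} (β : Fin k → ℝ) {p : ℕ} (hp : p.Prime) (v : ℕ) :
    PowerSeries.coeff v (G β p) = PowerSeries.coeff (2 * v) (H β p) := by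
  unfold G bell
  rw [PowerSeries.coeff_mk, gA_apply β (pow_ne_zero v hp.ne_zero)]
  have h2 : PowerSeries.coeff (2 * v) (bell p (T (sx β))) = T (sx β) (p ^ (2 * v)) := by
    unfold bell
    rw [PowerSeries.coeff_mk]
  rw [← pow_mul, mul_comm v 2, ← h2, bell_T hp]
  rfl

theorem sm_G {k : ℕ} (β : Fin k → ℝ) {p : ℕ} (hp : p.Prime) :
    Sm (G β p) ∧ ev (G β p) = 1 / 2 * ((∏ j, (1 - xx β p j)⁻¹) + ∏ j, (1 + xx β p j)⁻¹) := by
  obtain ⟨h1, h2⟩ := sum_even β hp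
  unfold Sm ev
  simp only [coeff_G β hp]
  exact ⟨h1, h2⟩

/-- the local identity -/
theorem local_id {k : ℕ} (β : Fin k → ℝ) {p : ℕ} (hp : p.Prime) :
    ∑' v, al β (p ^ v) = loc (im β) p := by
  have h := (sm_G β hp).1.mul (sm_Mu β p).1
  have e : ev (bell p (al β)) = ∑' v, al β (p ^ v) := by
    unfold ev bell
    simp only [PowerSeries.coeff_mk]
  rw [← e, bell_al β hp, h.2, (sm_G β hp).2, (sm_Mu β p).2]
  unfold loc
  have e1 : ∀ r : Pr k, (p : ℂ) ^ (-(1 + im β r.1.1 + im β r.1.2)) = yy β p r := fun r => by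
    unfold yy pp im
    congr 1
    ring
  have e2 : ∀ j : Fin k, (p : ℂ) ^ (-(1 / 2 + im β j)) = xx β p j := fun j => rfl
  simp only [e1, e2]
  ring

theorem G_bd {k : ℕ} (β : Fin k → ℝ) {p : ℕ} (hp : p.Prime) (v : ℕ) :
    ‖PowerSeries.coeff v (G β p)‖ ≤ (2 * v + 1 : ℝ) ^ k * ((p : ℝ)⁻¹) ^ v := by
  rw [coeff_G β hp]
  exact H_bd β hp v

theorem coeff_al {k : ℕ} (β : Fin k → ℝ) {p : ℕ} (hp : p.Prime) (v : ℕ) :
    al β (p ^ v) = PowerSeries.coeff v (G β p * Mu β p) := by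
  rw [← bell_al β hp]
  unfold bell
  rw [PowerSeries.coeff_mk]
theorem al_bd {k : ℕ} (β : Fin k → ℝ) {p : ℕ} (hp : p.Prime) (v : ℕ) :
    ‖al β (p ^ v)‖ ≤ Dk k v * ((p : ℝ)⁻¹) ^ v := by
  rw [coeff_al β hp, PowerSeries.coeff_mul]
  have h1 : ∀ q ∈ Finset.HasAntidiagonal.antidiagonal v, ‖PowerSeries.coeff q.1 (G β p) *
      PowerSeries.coeff q.2 (Mu β p)‖ ≤
      ((2 * v + 1 : ℝ) ^ k * 2 ^ Fintype.card (Pr k)) * ((p : ℝ)⁻¹) ^ v := by
    intro q hq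
    have hq' := Finset.HasAntidiagonal.mem_antidiagonal.1 hq
    have h4 : (q.1 : ℝ) ≤ v := by
      have : q.1 ≤ v := by omega
      exact_mod_cast this
    rw [norm_mul]
    calc ‖PowerSeries.coeff q.1 (G β p)‖ * ‖PowerSeries.coeff q.2 (Mu β p)‖
        ≤ ((2 * q.1 + 1 : ℝ) ^ k * ((p : ℝ)⁻¹) ^ q.1) *
          (2 ^ Fintype.card (Pr k) * ((p : ℝ)⁻¹) ^ q.2) :=
          mul_le_mul (G_bd β hp _) (Mu_bd β hp _) (norm_nonneg _) (by positivity)
      _ = ((2 * q.1 + 1 : ℝ) ^ k * 2 ^ Fintype.card (Pr k)) * ((p : ℝ)⁻¹) ^ v := by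
          rw [← hq', pow_add]
          ring
      _ ≤ _ := by gcongr
  refine (norm_sum_le_of_le _ h1).trans (le_of_eq ?_)
  rw [Finset.sum_const, Finset.Nat.card_antidiagonal, nsmul_eq_mul]
  unfold Dk
  push_cast
  ring

theorem al_prime {k : ℕ} (β : Fin k → ℝ) {p : ℕ} (hp : p.Prime) : al β (p ^ 1) = 0 := by
  have hH := (low_gs Finset.univ (xx β p)).2.2
  have hMu := low_li Finset.univ (yy β p)
  have hs := sum_pr (xx β p)
  have hy : ∑ r, yy β p r = PowerSeries.coeff 2 (H β p) := by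
    have h1 : ∑ r, yy β p r = ∑ r : Pr k, xx β p r.1.1 * xx β p r.1.2 :=
      Finset.sum_congr rfl fun r _ => yy_eq β hp r
    rw [h1]
    have h2 : (2 : ℂ) ≠ 0 := two_ne_zero
    apply mul_left_cancel₀ h2
    rw [hs]
    exact hH.symm
  have hG1 := coeff_G β hp 1
  have hG0 := coeff_G β hp 0
  rw [mul_zero, coeff_zero_H] at hG0
  rw [mul_one] at hG1
  rw [coeff_al β hp, coeff_one_mul, hG1, hG0]
  have e0 : PowerSeries.coeff 0 (Mu β p) = 1 := hMu.1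
  have e1 : PowerSeries.coeff 1 (Mu β p) = -PowerSeries.coeff 2 (H β p) := by
    rw [← hy]
    exact hMu.2
  rw [e0, e1]
  ring

theorem al_prime_bd {k : ℕ} (β : Fin k → ℝ) {p : ℕ} (hp : p.Prime) :
    ‖al β (p ^ 1)‖ ≤ 3 ^ k * ((p : ℝ)⁻¹) ^ 2 := by
  rw [al_prime β hp, norm_zero]
  positivity

/-- the absolute values with weights -/
def gg {k : ℕ} (β : Fin k → ℝ) (m : ℕ) : ℝ := ‖al β m‖ * (m : ℝ) ^ (1 / 4 : ℝ)

theorem gg_nonneg {k : ℕ} (β : Fin k → ℝ) (m : ℕ) : 0 ≤ gg β m := by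
  unfold gg
  positivity
theorem gg_one {k : ℕ} (β : Fin k → ℝ) : gg β 1 = 1 := by
  unfold gg
  rw [(al_mult β).map_one]
  simp
theorem gg_mul {k : ℕ} (β : Fin k → ℝ) {m n : ℕ} (h : m.Coprime n) :
    gg β (m * n) = gg β m * gg β n := by
  unfold gg
  rw [(al_mult β).map_mul_of_coprime h, norm_mul, Nat.cast_mul,
    Real.mul_rpow (Nat.cast_nonneg m) (Nat.cast_nonneg n)]
  ring
theorem gg_bd {k : ℕ} (β : Fin k → ℝ) {p : ℕ} (hp : p.Prime) (u : ℕ) :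
    gg β (p ^ (u + 1)) ≤ (p : ℝ) ^ (-(3 / 2) : ℝ) * ek k u := by
  have hp0 : (0 : ℝ) < p := by exact_mod_cast hp.pos
  have hp1 : (1 : ℝ) ≤ p := by exact_mod_cast hp.one_lt.le
  have hp2 : (2 : ℝ) ≤ p := by exact_mod_cast hp.two_le
  have hinv : ((p : ℝ)⁻¹) = (p : ℝ) ^ (-1 : ℝ) := (Real.rpow_neg_one _).symm
  unfold gg
  cases u with
  | zero =>
    have h1 := al_prime_bd β hp
    have h2 : ((p ^ (0 + 1) : ℕ) : ℝ) ^ (1 / 4 : ℝ) = (p : ℝ) ^ (1 / 4 : ℝ) := by simp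
    rw [h2]
    show _ ≤ (p : ℝ) ^ (-(3 / 2) : ℝ) * 3 ^ k
    have h3 : ((p : ℝ)⁻¹) ^ 2 * (p : ℝ) ^ (1 / 4 : ℝ) ≤ (p : ℝ) ^ (-(3 / 2) : ℝ) := by
      rw [hinv, ← Real.rpow_natCast, ← Real.rpow_mul hp0.le, ← Real.rpow_add hp0]
      exact Real.rpow_le_rpow_of_exponent_le hp1 (by norm_num)
    calc ‖al β (p ^ (0 + 1))‖ * (p : ℝ) ^ (1 / 4 : ℝ)
        ≤ (3 ^ k * ((p : ℝ)⁻¹) ^ 2) * (p : ℝ) ^ (1 / 4 : ℝ) := by gcongr
      _ = 3 ^ k * (((p : ℝ)⁻¹) ^ 2 * (p : ℝ) ^ (1 / 4 : ℝ)) := by ring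
      _ ≤ 3 ^ k * (p : ℝ) ^ (-(3 / 2) : ℝ) := by gcongr
      _ = _ := mul_comm _ _
  | succ u =>
    have h1 := al_bd β hp (u + 1 + 1)
    show _ ≤ (p : ℝ) ^ (-(3 / 2) : ℝ) * (Dk k (u + 2) * q0 ^ u)
    have h2 : ((p : ℝ)⁻¹) ^ (u + 2) * ((p ^ (u + 2) : ℕ) : ℝ) ^ (1 / 4 : ℝ) =
        (p : ℝ) ^ (-(3 / 2) : ℝ) * ((p : ℝ) ^ (-(3 / 4) : ℝ)) ^ u := by
      rw [hinv, Nat.cast_pow, ← Real.rpow_natCast, ← Real.rpow_natCast, ← Real.rpow_natCast,
        ← Real.rpow_mul hp0.le, ← Real.rpow_mul hp0.le, ← Real.rpow_mul hp0.le,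
        ← Real.rpow_add hp0, ← Real.rpow_add hp0]
      congr 1
      push_cast
      ring
    have h3 : ((p : ℝ) ^ (-(3 / 4) : ℝ)) ^ u ≤ q0 ^ u := by
      refine pow_le_pow_left₀ (by positivity) ?_ u
      exact Real.rpow_le_rpow_of_nonpos two_pos hp2 (by norm_num)
    have hD := Dk_nonneg k (u + 2)
    calc ‖al β (p ^ (u + 2))‖ * ((p ^ (u + 2) : ℕ) : ℝ) ^ (1 / 4 : ℝ)
        ≤ (Dk k (u + 2) * ((p : ℝ)⁻¹) ^ (u + 2)) * ((p ^ (u + 2) : ℕ) : ℝ) ^ (1 / 4 : ℝ) := by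
          refine mul_le_mul_of_nonneg_right h1 (by positivity)
      _ = Dk k (u + 2) * ((p : ℝ) ^ (-(3 / 2) : ℝ) * ((p : ℝ) ^ (-(3 / 4) : ℝ)) ^ u) := by
          rw [mul_assoc, h2]
      _ ≤ Dk k (u + 2) * ((p : ℝ) ^ (-(3 / 2) : ℝ) * q0 ^ u) := by gcongr
      _ = _ := by ring
theorem gg_local {k : ℕ} (β : Fin k → ℝ) {p : ℕ} (hp : p.Prime) :
    Summable (fun v => gg β (p ^ v)) ∧
      ∑' v, gg β (p ^ v) ≤ 1 + CE k * (p : ℝ) ^ (-(3 / 2) : ℝ) := by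
  have h1 : Summable fun v => gg β (p ^ (v + 1)) :=
    Summable.of_nonneg_of_le (fun v => gg_nonneg β _) (fun v => gg_bd β hp v)
      ((ek_summable k).mul_left _)
  have h2 : Summable fun v => gg β (p ^ v) :=
    (summable_nat_add_iff (f := fun v => gg β (p ^ v)) 1).1 h1
  refine ⟨h2, ?_⟩
  rw [h2.tsum_eq_zero_add, pow_zero, gg_one]
  have h3 := Summable.tsum_le_tsum (fun v => gg_bd β hp v) h1 ((ek_summable k).mul_left _)
  rw [tsum_mul_left] at h3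
  have e : CE k = ∑' u, ek k u := rfl
  rw [e]
  linarith
theorem gg_sum {k : ℕ} (β : Fin k → ℝ) (S : Finset ℕ) : ∑ m ∈ S, gg β m ≤ CC k := by
  classical
  set N : ℕ := S.sup id + 1 with hN
  have hz : Summable fun n : ℕ => (n : ℝ) ^ (-(3 / 2) : ℝ) :=
    Real.summable_nat_rpow.2 (by norm_num)
  have h1 := (EulerProduct.summable_and_hasSum_smoothNumbers_prod_primesBelow_tsum
    (f := gg β) (gg_one β) (fun {m n} h => gg_mul β h)
    (fun {p} hp => (gg_local β hp).1.norm) N).2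
  have h2 : HasSum ((N.smoothNumbers : Set ℕ).indicator (gg β))
      (∏ p ∈ N.primesBelow, ∑' v, gg β (p ^ v)) :=
    (hasSum_subtype_iff_indicator (f := gg β) (s := (N.smoothNumbers : Set ℕ))).1 h1
  have h0 : ∀ i, 0 ≤ (N.smoothNumbers : Set ℕ).indicator (gg β) i := fun i =>
    Set.indicator_nonneg (fun m _ => gg_nonneg β m) i
  have h3 := sum_le_hasSum S (fun i _ => h0 i) h2
  have h4 : ∑ m ∈ S, gg β m ≤ ∑ m ∈ S, (N.smoothNumbers : Set ℕ).indicator (gg β) m := by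
    refine Finset.sum_le_sum fun m hm => ?_
    rcases Nat.eq_zero_or_pos m with h | h
    · subst h
      have : gg β 0 = 0 := by
        unfold gg
        simp
      rw [this]
      exact h0 0
    · rw [Set.indicator_of_mem]
      refine Nat.mem_smoothNumbers_of_lt h ?_
      have : m ≤ S.sup id := Finset.le_sup (f := id) hm
      omega
  refine h4.trans (h3.trans ?_)
  have hpr : ∀ p ∈ N.primesBelow, p.Prime := fun p hp => Nat.prime_of_mem_primesBelow hp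
  calc ∏ p ∈ N.primesBelow, ∑' v, gg β (p ^ v)
      ≤ ∏ p ∈ N.primesBelow, Real.exp (CE k * (p : ℝ) ^ (-(3 / 2) : ℝ)) := by
        refine Finset.prod_le_prod (fun p hp => tsum_nonneg fun v => gg_nonneg β _) fun p hp => ?_
        refine (gg_local β (hpr p hp)).2.trans ?_
        have := Real.add_one_le_exp (CE k * (p : ℝ) ^ (-(3 / 2) : ℝ))
        linarith
    _ = Real.exp (∑ p ∈ N.primesBelow, CE k * (p : ℝ) ^ (-(3 / 2) : ℝ)) :=
        (Real.exp_sum _ _).symm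
    _ ≤ CC k := by
        unfold CC
        refine Real.exp_le_exp.2 ?_
        rw [← Finset.mul_sum]
        exact mul_le_mul_of_nonneg_left (hz.sum_le_tsum _ fun n _ => by positivity) (CE_nonneg k)
theorem gg_tsum {k : ℕ} (β : Fin k → ℝ) : Summable (gg β) ∧ ∑' m, gg β m ≤ CC k := by
  have h := summable_of_sum_le (gg_nonneg β) (gg_sum β)
  exact ⟨h, h.tsum_le_of_sum_le (gg_sum β)⟩
theorem al_le {k : ℕ} (β : Fin k → ℝ) (m : ℕ) : ‖al β m‖ ≤ gg β m := by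
  unfold gg
  rcases Nat.eq_zero_or_pos m with h | h
  · subst h
    simp
  · have : (1 : ℝ) ≤ (m : ℝ) ^ (1 / 4 : ℝ) :=
      Real.one_le_rpow (by exact_mod_cast h) (by norm_num)
    nlinarith [norm_nonneg (al β m)]
theorem al_summable {k : ℕ} (β : Fin k → ℝ) : Summable fun m => ‖al β m‖ :=
  Summable.of_nonneg_of_le (fun _ => norm_nonneg _) (al_le β) (gg_tsum β).1
theorem Ak_eq {k : ℕ} (β : Fin k → ℝ) : Ak (im β) = ∑' m, al β m := by
  have h := (al_mult β).eulerProduct_hasProd (al_summable β)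
  unfold Ak
  rw [← h.tprod_eq]
  exact tprod_congr fun p => (local_id β p.2).symm
/-- the Dirichlet series of the Euler product -/
theorem t_EUL : ∀ k : ℕ, ∃ C : ℝ, 0 < C ∧ ∀ (β : Fin k → ℝ),
  ‖Ak (im β)‖ ≤ C ∧ ∀ M : ℕ, 1 ≤ M → ‖Ak (im β) - ∑ m ∈ Finset.Icc 1 M, al β m‖ ≤ C * (M : ℝ) ^ (-(1 / 4) : ℝ) := by
  intro k
  refine ⟨CC k, Real.exp_pos _, fun β => ⟨?_, fun M hM => ?_⟩⟩
  · rw [Ak_eq]
    refine (norm_tsum_le_tsum_norm (al_summable β)).trans ?_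
    exact (Summable.tsum_le_tsum (al_le β) (al_summable β) (gg_tsum β).1).trans (gg_tsum β).2
  · classical
    have hs : Summable fun m => al β m := (al_summable β).of_norm
    have h1 := hs.sum_add_tsum_compl (s := Finset.Icc 1 M)
    rw [Ak_eq, ← h1, add_sub_cancel_left]
    have hM0 : (0 : ℝ) < M := by exact_mod_cast hM
    have h2 : ∀ m : ((Finset.Icc 1 M : Finset ℕ) : Set ℕ)ᶜ.Elem, ‖al β m‖ ≤
        (M : ℝ) ^ (-(1 / 4) : ℝ) * gg β m := by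
      rintro ⟨m, hm⟩
      simp only
      rcases Nat.eq_zero_or_pos m with h | h
      · subst h
        unfold gg
        simp
      · have h3 : M < m := by
          by_contra h4
          exact hm (Finset.mem_coe.2 (Finset.mem_Icc.2 ⟨h, by omega⟩))
        have h4 : (M : ℝ) ^ (1 / 4 : ℝ) ≤ (m : ℝ) ^ (1 / 4 : ℝ) :=
          Real.rpow_le_rpow hM0.le (by exact_mod_cast h3.le) (by norm_num)
        unfold gg
        rw [Real.rpow_neg hM0.le]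
        have h5 : 0 < (M : ℝ) ^ (1 / 4 : ℝ) := Real.rpow_pos_of_pos hM0 _
        rw [inv_mul_eq_div, le_div_iff₀ h5]
        exact mul_le_mul_of_nonneg_left h4 (norm_nonneg _)
    have h3 : Summable fun m : ((Finset.Icc 1 M : Finset ℕ) : Set ℕ)ᶜ.Elem => ‖al β m‖ :=
      (al_summable β).subtype _
    have h4 : Summable fun m : ((Finset.Icc 1 M : Finset ℕ) : Set ℕ)ᶜ.Elem => gg β m :=
      (gg_tsum β).1.subtype _
    have h6 : ∑' m : ((Finset.Icc 1 M : Finset ℕ) : Set ℕ)ᶜ.Elem, gg β m ≤ ∑' m, gg β m :=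
        Summable.tsum_subtype_le (gg β) _ (gg_nonneg β) (gg_tsum β).1
    calc ‖∑' m : ((Finset.Icc 1 M : Finset ℕ) : Set ℕ)ᶜ.Elem, al β m‖
        ≤ ∑' m : ((Finset.Icc 1 M : Finset ℕ) : Set ℕ)ᶜ.Elem, ‖al β m‖ :=
          norm_tsum_le_tsum_norm h3
      _ ≤ ∑' m : ((Finset.Icc 1 M : Finset ℕ) : Set ℕ)ᶜ.Elem,
            (M : ℝ) ^ (-(1 / 4) : ℝ) * gg β m := Summable.tsum_le_tsum h2 h3 (h4.mul_left _)
      _ = (M : ℝ) ^ (-(1 / 4) : ℝ) *
            ∑' m : ((Finset.Icc 1 M : Finset ℕ) : Set ℕ)ᶜ.Elem, gg β m := tsum_mul_left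
      _ ≤ (M : ℝ) ^ (-(1 / 4) : ℝ) * CC k :=
          mul_le_mul_of_nonneg_left (h6.trans (gg_tsum β).2) (by positivity)
      _ = CC k * (M : ℝ) ^ (-(1 / 4) : ℝ) := mul_comm _ _

end

end Pool.Agent.V8H24.QS.E1
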