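import Pool.Agent.V8H24.QS.Chr
import Pool.Agent.N879.QM.Uni

set_option autoImplicit false

/-!
Prime conductors: the characters and the sums over primes with the weights `log p log (Y / p)`.
-/

namespace Pool.Agent.V8H24.QS

open Complex hiding im
open Finset
open Pool.Agent.H410R2 Pool.Agent.H398R2.BV
open Pool.Agent.N879.QM (Is Rp vl ch t_UNI)
open scoped ArithmeticFunction.vonMangoldt

noncomputable section

/-- the primes `p < M` congruent to `s` modulo `4` -/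
def PD (s : ℤ) (M : ℕ) : Finset ℕ := (range M).filter (fun p => p.Prime ∧ (p : ℤ) % 4 = s % 4)

theorem mem_PD {s : ℤ} {M p : ℕ} : p ∈ PD s M ↔ p < M ∧ p.Prime ∧ (p : ℤ) % 4 = s % 4 := by
  unfold PD
  rw [mem_filter, mem_range]

theorem chi4_of {s : ℤ} (hs : s = 1 ∨ s = -1) {p : ℕ} (h : (p : ℤ) % 4 = s % 4) : ZMod.χ₄ (p : ZMod 4) = s := by
  rcases hs with rfl | rfl
  · apply ZMod.χ₄_nat_one_mod_four
    omega
  · apply ZMod.χ₄_nat_three_mod_four
    omega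

theorem odd_of {s : ℤ} (hs : s = 1 ∨ s = -1) {p : ℕ} (h : (p : ℤ) % 4 = s % 4) : Odd p := by
  rw [Nat.odd_iff]
  rcases hs with rfl | rfl <;> omega

/-- the quadratic character modulo `p` -/
theorem rp_prime {s : ℤ} (hs : s = 1 ∨ s = -1) {p : ℕ} (hp : p.Prime) (h : (p : ℤ) % 4 = s % 4) :
    ∃ χ : DirichletCharacter ℂ p, Rp s χ ∧ ∀ n : ℕ, χ (n : ZMod p) = ((jacobiSym (n : ℤ) p : ℤ) : ℂ) := by
  have : Fact p.Prime := ⟨hp⟩
  have hodd := odd_of hs h
  have hp2 : p ≠ 2 := by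
    rintro rfl
    exact absurd hodd (by decide)
  have hchar : ringChar (ZMod p) ≠ 2 := by
    rw [ZMod.ringChar_zmod_n]
    exact hp2
  set χ : DirichletCharacter ℂ p := (quadraticChar (ZMod p)).ringHomComp (Int.castRingHom ℂ) with hχ
  have hval : ∀ a : ZMod p, χ a = ((quadraticChar (ZMod p) a : ℤ) : ℂ) := fun a => rfl
  have hinj : Function.Injective (Int.castRingHom ℂ) := Int.cast_injective
  have h1 : χ ≠ 1 := by
    rw [hχ]
    exact (MulChar.ringHomComp_ne_one_iff hinj).2 (quadraticChar_ne_one hchar)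
  have h2 : χ ^ 2 = 1 := by
    rw [hχ]
    exact ((quadraticChar_isQuadratic (ZMod p)).comp _).sq_eq_one
  refine ⟨χ, ⟨?_, h2, h1, ?_⟩, ?_⟩
  · rw [DirichletCharacter.isPrimitive_def]
    have h3 := DirichletCharacter.conductor_dvd_level χ
    rcases (Nat.dvd_prime hp).1 h3 with h4 | h4
    · exact absurd (DirichletCharacter.eq_one_iff_conductor_eq_one.2 h4) h1
    · exact h4
  · rw [hval, quadraticChar_neg_one hchar, ZMod.card p, chi4_of hs h]
  · intro n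
    rw [hval, ← jacobiSym.legendreSym.to_jacobiSym]
    unfold legendreSym
    simp

theorem is_prime {s : ℤ} (hs : s = 1 ∨ s = -1) {p : ℕ} (hp : p.Prime) (h : (p : ℤ) % 4 = s % 4) : Is s p := by
  obtain ⟨χ, hχ, -⟩ := rp_prime hs hp h
  exact ⟨hp.two_le, χ, hχ⟩

theorem vl_prime {s : ℤ} (hs : s = 1 ∨ s = -1) {p : ℕ} (hp : p.Prime) (h : (p : ℤ) % 4 = s % 4) (n : ℕ) :
    vl s p n = ((zro (n : ℤ) p : ℤ) : ℂ) := by
  obtain ⟨χ, hχ, hv⟩ := rp_prime hs hp h
  have hI := is_prime hs hp h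
  have e : ch s p = χ := by
    unfold ch
    rw [dif_pos hI]
    exact t_UNI s p _ _ hp.ne_zero hI.2.choose_spec hχ
  unfold vl zro
  rw [e, hv, if_pos (odd_of hs h)]

/-- `log p` on the primes -/
def lq (p : ℕ) : ℝ := if p.Prime then Real.log p else 0

theorem lq_nonneg (p : ℕ) : 0 ≤ lq p := by
  unfold lq
  split_ifs
  · exact Real.log_natCast_nonneg p
  · exact le_rfl

theorem lq_le_vM (p : ℕ) : lq p ≤ Λ p := by
  unfold lq
  split_ifs with h
  · rw [ArithmeticFunction.vonMangoldt_apply_prime h]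
  · exact ArithmeticFunction.vonMangoldt_nonneg

theorem sum_vM_sub_lq {y : ℝ} (hy : 1 ≤ y) :
    ∑ m ∈ Finset.Icc 1 ⌊y⌋₊, (Λ m - lq m) ≤ 2 * √y * Real.log y := by
  have h1 := Chebyshev.abs_psi_sub_theta_le_sqrt_mul_log hy
  have h2 : Chebyshev.psi y - Chebyshev.theta y = ∑ m ∈ Finset.Icc 1 ⌊y⌋₊, (Λ m - lq m) := by
    rw [Finset.sum_sub_distrib]
    unfold Chebyshev.psi Chebyshev.theta lq
    rw [Finset.sum_filter]
    rfl
  rw [← h2]
  exact (le_abs_self _).trans h1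

theorem sum_log_primeFactors_le {n : ℕ} (hn : n ≠ 0) (N : ℕ) :
    ∑ p ∈ (Finset.Icc 1 N).filter (fun p => p.Prime ∧ p ∣ n), Real.log p ≤ Real.log n := by
  have h1 : (Finset.Icc 1 N).filter (fun p => p.Prime ∧ p ∣ n) ⊆ n.primeFactors := by
    intro p hp
    rw [Finset.mem_filter] at hp
    exact Nat.mem_primeFactors.2 ⟨hp.2.1, hp.2.2, hn⟩
  calc _ ≤ ∑ p ∈ n.primeFactors, Real.log p :=
        Finset.sum_le_sum_of_subset_of_nonneg h1 (fun p _ _ => Real.log_natCast_nonneg p)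
    _ = Real.log ((∏ p ∈ n.primeFactors, p : ℕ) : ℝ) := by
        push_cast
        rw [Real.log_prod]
        intro p hp
        have := (Nat.prime_of_mem_primeFactors hp).ne_zero
        exact_mod_cast this
    _ ≤ Real.log n := by
        apply Real.log_le_log
        · have : 0 < ∏ p ∈ n.primeFactors, p := Finset.prod_pos fun p hp =>
            (Nat.prime_of_mem_primeFactors hp).pos
          exact_mod_cast this
        · exact_mod_cast Nat.le_of_dvd (Nat.pos_of_ne_zero hn) (Nat.prod_primeFactors_dvd n)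

/-- the sum over primes with the character `p ↦ (D / p)` -/
def GD (D : ℤ) (Y : ℝ) : ℂ :=
  ∑ m ∈ Icc 1 ⌊Y⌋₊, ((lq m * Real.log (Y / m) : ℝ) : ℂ) * ((zro D m : ℤ) : ℂ)

theorem lg_bd {Y : ℝ} (hY : 1 ≤ Y) {m : ℕ} (hm : m ∈ Icc 1 ⌊Y⌋₊) :
    0 ≤ Real.log (Y / m) ∧ Real.log (Y / m) ≤ Real.log Y := by
  rw [mem_Icc] at hm
  have h1 : (1 : ℝ) ≤ m := by exact_mod_cast hm.1
  have h2 : (m : ℝ) ≤ Y := (Nat.le_floor_iff (by linarith)).1 hm.2
  refine ⟨Real.log_nonneg ?_, Real.log_le_log (by positivity) ?_⟩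
  · rw [le_div_iff₀ (by linarith)]
    linarith
  · exact div_le_self (by linarith) h1

/-- a sum over the primes dividing an integer -/
theorem sum_dvd {Y : ℝ} (hY : 1 ≤ Y) {n : ℕ} (hn : n ≠ 0) (z : ℕ → ℂ)
    (hz : ∀ m : ℕ, m.Prime → ‖z m‖ ≤ 1) (h0 : ∀ m : ℕ, m.Prime → ¬ m ∣ n → z m = 0) :
    ‖∑ m ∈ Icc 1 ⌊Y⌋₊, ((lq m * Real.log (Y / m) : ℝ) : ℂ) * z m‖ ≤ Real.log n * Real.log Y := by
  have hlY : 0 ≤ Real.log Y := Real.log_nonneg hY
  have h1 : ∀ m ∈ Icc 1 ⌊Y⌋₊, ‖((lq m * Real.log (Y / m) : ℝ) : ℂ) * z m‖ ≤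
      (if m.Prime ∧ m ∣ n then Real.log m else 0) * Real.log Y := by
    intro m hm
    obtain ⟨a1, a2⟩ := lg_bd hY hm
    by_cases hp : m.Prime
    · by_cases hd : m ∣ n
      · rw [if_pos ⟨hp, hd⟩, norm_mul, norm_real, Real.norm_of_nonneg (mul_nonneg (lq_nonneg m) a1)]
        have e : lq m = Real.log m := by unfold lq; rw [if_pos hp]
        rw [e]
        have h3 := Real.log_natCast_nonneg m
        calc Real.log m * Real.log (Y / m) * ‖z m‖ ≤ Real.log m * Real.log Y * 1 := by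
              gcongr
              exact hz m hp
          _ = _ := mul_one _
      · rw [h0 m hp hd, mul_zero, norm_zero]
        split_ifs
        · exact mul_nonneg (Real.log_natCast_nonneg m) hlY
        · rw [zero_mul]
    · have e : lq m = 0 := by unfold lq; rw [if_neg hp]
      rw [e, zero_mul, ofReal_zero, zero_mul, norm_zero]
      split_ifs
      · exact mul_nonneg (Real.log_natCast_nonneg m) hlY
      · rw [zero_mul]
  refine (norm_sum_le_of_le _ h1).trans ?_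
  rw [← sum_mul, ← sum_filter]
  exact mul_le_mul_of_nonneg_right (sum_log_primeFactors_le hn _) hlY

theorem GD_psi {D : ℤ} (hD : ¬ IsSquare D) {Y : ℝ} (hY : 1 ≤ Y) :
    ‖GD D Y‖ ≤ ‖psiLog Y (pc D).1 (pc D).2‖ + 2 * √Y * Real.log Y * Real.log Y +
      Real.log ((4 * D.natAbs : ℕ) : ℝ) * Real.log Y := by
  obtain ⟨a1, a2, -, a4⟩ := pc_spec hD
  have hD0 : D ≠ 0 := by
    rintro rfl
    exact hD ⟨0, by simp⟩
  have hlY : 0 ≤ Real.log Y := Real.log_nonneg hY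
  set f := (pc D).1 with hf
  set ψ := (pc D).2 with hψ
  have e : GD D Y = psiLog Y f ψ - (∑ m ∈ Icc 1 ⌊Y⌋₊, (((Λ m - lq m) * Real.log (Y / m) : ℝ) : ℂ) * ψ (m : ZMod f)) +
      ∑ m ∈ Icc 1 ⌊Y⌋₊, ((lq m * Real.log (Y / m) : ℝ) : ℂ) * (((zro D m : ℤ) : ℂ) - ψ (m : ZMod f)) := by
    unfold GD psiLog
    rw [← sum_sub_distrib, ← sum_add_distrib]
    refine sum_congr rfl fun m _ => ?_
    push_cast
    ring
  have h1 : ‖∑ m ∈ Icc 1 ⌊Y⌋₊, (((Λ m - lq m) * Real.log (Y / m) : ℝ) : ℂ) * ψ (m : ZMod f)‖ ≤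
      2 * √Y * Real.log Y * Real.log Y := by
    refine le_trans (norm_sum_le_of_le _ (f := fun m => (((Λ m - lq m) * Real.log (Y / m) : ℝ) : ℂ) * ψ (m : ZMod f))
      (n := fun m : ℕ => (Λ m - lq m) * Real.log Y) ?_) ?_
    · intro m hm
      obtain ⟨b1, b2⟩ := lg_bd hY hm
      have b3 := lq_le_vM m
      rw [norm_mul, norm_real, Real.norm_of_nonneg (mul_nonneg (by linarith) b1)]
      have b4 := DirichletCharacter.norm_le_one ψ (m : ZMod f)
      calc (Λ m - lq m) * Real.log (Y / m) * ‖ψ (m : ZMod f)‖ ≤ (Λ m - lq m) * Real.log Y * 1 := by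
            gcongr
        _ = _ := mul_one _
    · rw [← sum_mul]
      exact mul_le_mul_of_nonneg_right (sum_vM_sub_lq hY) hlY
  have h2 : ‖∑ m ∈ Icc 1 ⌊Y⌋₊, ((lq m * Real.log (Y / m) : ℝ) : ℂ) * (((zro D m : ℤ) : ℂ) - ψ (m : ZMod f))‖ ≤
      Real.log ((4 * D.natAbs : ℕ) : ℝ) * Real.log Y := by
    apply sum_dvd hY
    · have := Int.natAbs_ne_zero.2 hD0
      omega
    · intro m hm
      by_cases hc : m.Coprime (4 * D.natAbs)
      · rw [a4 m hc, sub_self, norm_zero]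
        exact zero_le_one
      · rw [(zro_zero_iff m).2 hc, Int.cast_zero, zero_sub, norm_neg]
        exact DirichletCharacter.norm_le_one ψ _
    · intro m hm hd
      have hc : m.Coprime (4 * D.natAbs) := (Nat.Prime.coprime_iff_not_dvd hm).2 hd
      rw [a4 m hc, sub_self]
  rw [e]
  refine (norm_add_le _ _).trans (add_le_add ((norm_sub_le _ _).trans (add_le_add le_rfl h1)) h2)

theorem zro_sq_mul {t : ℤ} (a b p : ℕ) (h : ¬ p ∣ b) (hp : p.Prime) :
    zro (t * ((b ^ 2 * a : ℕ) : ℤ)) p = zro (t * (a : ℤ)) p := by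
  unfold zro
  split_ifs with ho
  · have e : t * ((b ^ 2 * a : ℕ) : ℤ) = (b : ℤ) ^ 2 * (t * a) := by push_cast; ring
    have h1 : ((b : ℤ).gcd p) = 1 := by
      rw [Int.gcd_natCast_natCast]
      exact ((Nat.Prime.coprime_iff_not_dvd hp).2 h).symm
    rw [e, jacobiSym.mul_left, jacobiSym.sq_one' h1, one_mul]
  · rfl

theorem GD_sq {t : ℤ} {a b : ℕ} (hb : b ≠ 0) {Y : ℝ} (hY : 1 ≤ Y) :
    ‖GD (t * ((b ^ 2 * a : ℕ) : ℤ)) Y‖ ≤ ‖GD (t * (a : ℤ)) Y‖ + Real.log b * Real.log Y := by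
  have e : GD (t * ((b ^ 2 * a : ℕ) : ℤ)) Y = GD (t * (a : ℤ)) Y +
      ∑ m ∈ Icc 1 ⌊Y⌋₊, ((lq m * Real.log (Y / m) : ℝ) : ℂ) *
        (((zro (t * ((b ^ 2 * a : ℕ) : ℤ)) m : ℤ) : ℂ) - ((zro (t * (a : ℤ)) m : ℤ) : ℂ)) := by
    unfold GD
    rw [← sum_add_distrib]
    refine sum_congr rfl fun m _ => ?_
    ring
  rw [e]
  refine (norm_add_le _ _).trans (add_le_add le_rfl (sum_dvd hY hb _ ?_ ?_))
  · intro m hm
    by_cases hd : m ∣ b
    · have h0 : zro (t * ((b ^ 2 * a : ℕ) : ℤ)) m = 0 := by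
        rw [zro_zero_iff]
        intro hc
        have h1 : m ∣ 4 * (t * ((b ^ 2 * a : ℕ) : ℤ)).natAbs := by
          rw [Int.natAbs_mul, Int.natAbs_natCast]
          have h2 : m ∣ b ^ 2 * a := (dvd_pow hd two_ne_zero).mul_right a
          exact (h2.mul_left _).mul_left _
        have h3 := Nat.dvd_gcd dvd_rfl h1
        rw [hc.gcd_eq_one] at h3
        exact hm.one_lt.ne' (Nat.dvd_one.1 h3)
      rw [h0, Int.cast_zero, zero_sub, norm_neg]
      exact zro_norm _ _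
    · rw [zro_sq_mul a b m hd hm, sub_self, norm_zero]
      exact zero_le_one
  · intro m hm hd
    rw [zro_sq_mul a b m hd hm, sub_self]

end

end Pool.Agent.V8H24.QS
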