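import Pool.Agent.V8H24.QS.Vs

set_option autoImplicit false

/-!
Removal of the weights: the unweighted sums over the prime conductors.
-/

namespace Pool.Agent.V8H24.QS

open Complex hiding im
open Finset Filter Topology
open Pool.Agent.N879.QM (Is Rp vl ch)

noncomputable section

/-- the sum over the family with the weights `log p` -/
def S1 (s : ℤ) (n M : ℕ) : ℂ := ∑ p ∈ PD s M, ((Real.log p : ℝ) : ℂ) * vl s p n

/-- the sum over the family -/
def S0 (s : ℤ) (n M : ℕ) : ℂ := ∑ p ∈ PD s M, vl s p n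

theorem vl_norm (s : ℤ) (q n : ℕ) : ‖vl s q n‖ ≤ 1 := DirichletCharacter.norm_le_one _ _

theorem PD_succ (s : ℤ) (M : ℕ) : PD s (M + 1) = (Icc 1 M).filter (fun p : ℕ => p.Prime ∧ (p : ℤ) % 4 = s % 4) := by
  ext p
  rw [mem_PD, mem_filter, mem_Icc]
  constructor
  · rintro ⟨h1, h2, h3⟩
    exact ⟨⟨h2.one_lt.le, by omega⟩, h2, h3⟩
  · rintro ⟨h1, h2, h3⟩
    exact ⟨by omega, h2, h3⟩

/-- sharp cut off -/
theorem S1_le (s : ℤ) (n M : ℕ) {h : ℝ} (h0 : 0 < h) (h1 : h ≤ 1) (hM : 1 ≤ M) :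
    ‖S1 s n (M + 1)‖ ≤ h⁻¹ * (‖FS s n (M * Real.exp h)‖ + ‖FS s n M‖) + 2 * h * M * Real.log (M * Real.exp h) := by
  have hM0 : (0 : ℝ) < M := by exact_mod_cast hM
  have hM1 : (1 : ℝ) ≤ M := by exact_mod_cast hM
  have he1 : 1 ≤ Real.exp h := Real.one_le_exp h0.le
  set Y : ℝ := M * Real.exp h with hY
  have hY0 : 0 < Y := by positivity
  have hMY : (M : ℝ) ≤ Y := by
    rw [hY]
    nlinarith
  have hfl : M ≤ ⌊Y⌋₊ := Nat.le_floor hMY
  have hlY : 0 ≤ Real.log Y := Real.log_nonneg (by linarith)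
  set A : Finset ℕ := (Icc 1 M).filter (fun p : ℕ => p.Prime ∧ (p : ℤ) % 4 = s % 4) with hA
  set B : Finset ℕ := (Icc 1 ⌊Y⌋₊).filter (fun p : ℕ => p.Prime ∧ (p : ℤ) % 4 = s % 4) with hB
  have hAB : A ⊆ B := filter_subset_filter _ (Icc_subset_Icc le_rfl hfl)
  have e1 : FS s n Y = (∑ p ∈ B \ A, ((Real.log p * Real.log (Y / p) : ℝ) : ℂ) * vl s p n) +
      ∑ p ∈ A, ((Real.log p * Real.log (Y / p) : ℝ) : ℂ) * vl s p n := by
    unfold FS
    exact (sum_sdiff hAB).symm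
  have e2 : FS s n M = ∑ p ∈ A, ((Real.log p * Real.log (M / p) : ℝ) : ℂ) * vl s p n := by
    unfold FS
    rw [Nat.floor_natCast]
  have e3 : ∑ p ∈ A, ((Real.log p * Real.log (Y / p) : ℝ) : ℂ) * vl s p n =
      (∑ p ∈ A, ((Real.log p * Real.log (M / p) : ℝ) : ℂ) * vl s p n) + (h : ℂ) * S1 s n (M + 1) := by
    unfold S1
    rw [PD_succ, mul_sum, ← sum_add_distrib]
    refine sum_congr rfl fun p hp => ?_
    rw [hA, mem_filter, mem_Icc] at hp
    have hp0 : (0 : ℝ) < p := by exact_mod_cast hp.1.1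
    have e4 : Real.log (Y / p) = Real.log (M / p) + h := by
      rw [hY, mul_div_right_comm, Real.log_mul (by positivity) (by positivity), Real.log_exp]
    rw [e4]
    push_cast
    ring
  set E : ℂ := ∑ p ∈ B \ A, ((Real.log p * Real.log (Y / p) : ℝ) : ℂ) * vl s p n with hE
  have hEb : ‖E‖ ≤ 2 * h * M * (Real.log Y * h) := by
    have h2 : ∀ p ∈ B \ A, ‖((Real.log p * Real.log (Y / p) : ℝ) : ℂ) * vl s p n‖ ≤ Real.log Y * h := by
      intro p hp
      rw [Finset.mem_sdiff, hB, hA, mem_filter, mem_filter, mem_Icc, mem_Icc] at hp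
      obtain ⟨⟨⟨p1, p2⟩, p3⟩, p4⟩ := hp
      have p5 : M < p := by
        by_contra hc
        exact p4 ⟨⟨p1, by omega⟩, p3⟩
      have hp0 : (0 : ℝ) < p := by exact_mod_cast p1
      have hpY : (p : ℝ) ≤ Y := (Nat.le_floor_iff hY0.le).1 p2
      have hl0 : 0 ≤ Real.log (Y / p) := Real.log_nonneg (by rw [le_div_iff₀ hp0]; linarith)
      have hl1 : Real.log (Y / p) ≤ h := by
        rw [← Real.log_exp h]
        apply Real.log_le_log (by positivity)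
        rw [div_le_iff₀ hp0, hY, mul_comm]
        have : (M : ℝ) ≤ p := by exact_mod_cast p5.le
        gcongr
      have hl2 : Real.log p ≤ Real.log Y := Real.log_le_log hp0 hpY
      have hl3 := Real.log_natCast_nonneg p
      rw [norm_mul, norm_real, Real.norm_of_nonneg (mul_nonneg hl3 hl0)]
      have := vl_norm s p n
      calc Real.log p * Real.log (Y / p) * ‖vl s p n‖ ≤ Real.log Y * h * 1 := by gcongr
        _ = _ := mul_one _
    refine (norm_sum_le_of_le _ h2).trans ?_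
    rw [sum_const, nsmul_eq_mul]
    apply mul_le_mul_of_nonneg_right _ (by positivity)
    have h3 : B \ A ⊆ Ioc M ⌊Y⌋₊ := by
      intro p hp
      rw [Finset.mem_sdiff, hB, hA, mem_filter, mem_filter, mem_Icc, mem_Icc] at hp
      obtain ⟨⟨⟨p1, p2⟩, p3⟩, p4⟩ := hp
      rw [mem_Ioc]
      refine ⟨?_, p2⟩
      by_contra hc
      exact p4 ⟨⟨p1, by omega⟩, p3⟩
    have h4 : ((B \ A).card : ℝ) ≤ ((⌊Y⌋₊ - M : ℕ) : ℝ) := by
      have := card_le_card h3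
      rw [Nat.card_Ioc] at this
      exact_mod_cast this
    refine h4.trans ?_
    rw [Nat.cast_sub hfl]
    have h5 : (⌊Y⌋₊ : ℝ) ≤ Y := Nat.floor_le hY0.le
    have h6 := Real.abs_exp_sub_one_le (x := h) (by rw [abs_of_pos h0]; exact h1)
    rw [abs_of_pos h0] at h6
    have h7 : Real.exp h - 1 ≤ 2 * h := (le_abs_self _).trans h6
    have h8 : Y - M = M * (Real.exp h - 1) := by rw [hY]; ring
    have h9 : (M : ℝ) * (Real.exp h - 1) ≤ M * (2 * h) := mul_le_mul_of_nonneg_left h7 hM0.le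
    linarith
  have e5 : (h : ℂ) * S1 s n (M + 1) = FS s n Y - FS s n M - E := by
    rw [e1, e2, e3]
    ring
  have h2 : h * ‖S1 s n (M + 1)‖ ≤ ‖FS s n Y‖ + ‖FS s n M‖ + 2 * h * M * (Real.log Y * h) := by
    have e6 : ‖(h : ℂ) * S1 s n (M + 1)‖ = h * ‖S1 s n (M + 1)‖ := by
      rw [norm_mul, norm_real, Real.norm_of_nonneg h0.le]
    rw [← e6, e5]
    have k1 := norm_sub_le (FS s n Y - FS s n M) E
    have k2 := norm_sub_le (FS s n Y) (FS s n M)
    linarith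
  have h3 : ‖S1 s n (M + 1)‖ = h⁻¹ * (h * ‖S1 s n (M + 1)‖) := by
    field_simp
  rw [h3]
  calc h⁻¹ * (h * ‖S1 s n (M + 1)‖) ≤ h⁻¹ * (‖FS s n Y‖ + ‖FS s n M‖ + 2 * h * M * (Real.log Y * h)) :=
        mul_le_mul_of_nonneg_left h2 (by positivity)
    _ = _ := by field_simp

/-- the weights `log p`, on average -/
theorem sum_S1 (U : ℕ) : ∃ M₀ : ℝ, ∀ (s : ℤ) (M K : ℕ), s = 1 ∨ s = -1 → M₀ ≤ M → 1 ≤ K →
    (K : ℝ) ≤ (M : ℝ) ^ (1 / 4 : ℝ) → ∑ n ∈ NSq K, (1 / (n : ℝ)) * ‖S1 s n (M + 1)‖ ≤ M / Real.log M ^ U := by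
  obtain ⟨Y₀, hV⟩ := sum_V (2 * U + 4)
  have ev5 : ∀ᶠ X : ℝ in atTop, 16 ≤ Real.log X := Real.tendsto_log_atTop.eventually_ge_atTop _
  obtain ⟨M₀, hM₀⟩ := eventually_atTop.1 (ev5.and ((eventually_ge_atTop Y₀).and (eventually_ge_atTop 3)))
  refine ⟨M₀, ?_⟩
  intro s M K hs hM hK hKM
  obtain ⟨v1, v2, v3⟩ := hM₀ M hM
  have hM0 : (0 : ℝ) < M := by linarith
  have hM1 : (1 : ℝ) ≤ M := by linarith
  have hMn : 1 ≤ M := by exact_mod_cast hM1
  set L := Real.log M with hL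
  have hL0 : 0 < L := by linarith
  have hL1 : 1 ≤ L := by linarith
  set h : ℝ := (L ^ (U + 3))⁻¹ with hh
  have hp1 : 1 ≤ L ^ (U + 3) := one_le_pow₀ hL1
  have h0 : 0 < h := by positivity
  have h1 : h ≤ 1 := inv_le_one_of_one_le₀ hp1
  have he1 : 1 ≤ Real.exp h := Real.one_le_exp h0.le
  have he3 : Real.exp h ≤ 3 := by
    calc Real.exp h ≤ Real.exp 1 := Real.exp_le_exp.2 h1
      _ ≤ 3 := by have := Real.exp_one_lt_d9; linarith
  set Y : ℝ := M * Real.exp h with hY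
  have hMY : (M : ℝ) ≤ Y := by rw [hY]; nlinarith
  have hY3 : Y ≤ 3 * M := by rw [hY]; nlinarith
  have hlY : Real.log Y ≤ 2 * L := by
    calc Real.log Y ≤ Real.log (3 * M) := Real.log_le_log (by linarith) hY3
      _ = Real.log 3 + L := Real.log_mul (by norm_num) hM0.ne'
      _ ≤ 2 * L := by
          have : Real.log 3 ≤ L := Real.log_le_log (by norm_num) v3
          linarith
  have hlY1 : L ≤ Real.log Y := Real.log_le_log hM0 hMY
  have hKY : (K : ℝ) ≤ Y ^ (1 / 4 : ℝ) := hKM.trans (Real.rpow_le_rpow hM0.le hMY (by norm_num))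
  have V1 := hV s M K hs v2 hK hKM
  have V2 := hV s Y K hs (v2.trans hMY) hK hKY
  rw [← hL] at V1
  have hK0 : (0 : ℝ) < K := by exact_mod_cast hK
  have hKM' : (K : ℝ) ≤ M := by
    refine hKM.trans ?_
    calc (M : ℝ) ^ (1 / 4 : ℝ) ≤ (M : ℝ) ^ (1 : ℝ) := Real.rpow_le_rpow_of_exponent_le hM1 (by norm_num)
      _ = M := Real.rpow_one _
  have hlK : Real.log K ≤ L := Real.log_le_log hK0 hKM'
  have hin : ∑ n ∈ NSq K, (1 / (n : ℝ)) ≤ 2 * L := by
    calc ∑ n ∈ NSq K, (1 / (n : ℝ)) ≤ ∑ n ∈ Icc 1 K, (1 / (n : ℝ)) :=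
          sum_le_sum_of_subset_of_nonneg (NSq_sub K) fun n _ _ => by positivity
      _ ≤ 1 + Real.log K := sum_inv_le
      _ ≤ 2 * L := by linarith
  have V2' : ∑ n ∈ NSq K, (1 / (n : ℝ)) * ‖FS s n Y‖ ≤ 3 * (M / L ^ (2 * U + 4)) := by
    refine V2.trans ?_
    rw [← mul_div_assoc]
    exact div_le_div₀ (by positivity) hY3 (by positivity) (pow_le_pow_left₀ hL0.le hlY1 _)
  have key : ∀ n ∈ NSq K, (1 / (n : ℝ)) * ‖S1 s n (M + 1)‖ ≤
      h⁻¹ * ((1 / (n : ℝ)) * ‖FS s n Y‖) + h⁻¹ * ((1 / (n : ℝ)) * ‖FS s n M‖) +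
        (2 * h * M * Real.log Y) * (1 / (n : ℝ)) := by
    intro n _
    have := S1_le s n M h0 h1 hMn
    have hn0 : (0 : ℝ) ≤ 1 / (n : ℝ) := by positivity
    calc (1 / (n : ℝ)) * ‖S1 s n (M + 1)‖ ≤ (1 / (n : ℝ)) *
          (h⁻¹ * (‖FS s n Y‖ + ‖FS s n M‖) + 2 * h * M * Real.log Y) := mul_le_mul_of_nonneg_left this hn0
      _ = _ := by ring
  refine (sum_le_sum key).trans ?_
  rw [sum_add_distrib, sum_add_distrib, ← mul_sum, ← mul_sum, ← mul_sum]
  have hhi : h⁻¹ = L ^ (U + 3) := by rw [hh, inv_inv]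
  have c1 : h⁻¹ * ∑ n ∈ NSq K, (1 / (n : ℝ)) * ‖FS s n Y‖ ≤ 3 * (M / L ^ (U + 1)) := by
    calc h⁻¹ * ∑ n ∈ NSq K, (1 / (n : ℝ)) * ‖FS s n Y‖ ≤ h⁻¹ * (3 * (M / L ^ (2 * U + 4))) :=
          mul_le_mul_of_nonneg_left V2' (by positivity)
      _ = 3 * (M / L ^ (U + 1)) := by
          rw [hhi]
          have : L ^ (2 * U + 4) = L ^ (U + 3) * L ^ (U + 1) := by rw [← pow_add]; congr 1; ring
          rw [this]
          field_simp
  have c2 : h⁻¹ * ∑ n ∈ NSq K, (1 / (n : ℝ)) * ‖FS s n M‖ ≤ M / L ^ (U + 1) := by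
    calc h⁻¹ * ∑ n ∈ NSq K, (1 / (n : ℝ)) * ‖FS s n M‖ ≤ h⁻¹ * (M / L ^ (2 * U + 4)) :=
          mul_le_mul_of_nonneg_left V1 (by positivity)
      _ = M / L ^ (U + 1) := by
          rw [hhi]
          have : L ^ (2 * U + 4) = L ^ (U + 3) * L ^ (U + 1) := by rw [← pow_add]; congr 1; ring
          rw [this]
          field_simp
  have c3 : (2 * h * M * Real.log Y) * ∑ n ∈ NSq K, (1 / (n : ℝ)) ≤ 8 * (M / L ^ (U + 1)) := by
    calc (2 * h * M * Real.log Y) * ∑ n ∈ NSq K, (1 / (n : ℝ)) ≤ (2 * h * M * (2 * L)) * (2 * L) := by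
          have : 0 ≤ Real.log Y := by linarith
          gcongr
      _ = 8 * (M / L ^ (U + 1)) := by
          have : L ^ (U + 3) = L ^ (U + 1) * L ^ 2 := by rw [← pow_add]
          rw [hh, this]
          field_simp
          ring
  have c4 : 16 * (M / L ^ (U + 1)) ≤ M / L ^ U := by
    rw [pow_succ, mul_div_assoc', div_le_div_iff₀ (by positivity) (by positivity)]
    have : 0 ≤ (M : ℝ) * L ^ U := by positivity
    nlinarith
  have c5 : 0 ≤ M / L ^ (U + 1) := by positivity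
  linarith

end

end Pool.Agent.V8H24.QS
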