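import Pool.Agent.V8H6.RW.Asm2

set_option autoImplicit false

/-!
Moments of quadratic Dirichlet `L`-functions over arbitrary subfamilies, almost all small shifts: the
product of the `L`-functions is replaced by the product of short Dirichlet polynomials, for all
bounded weights at once.
-/

namespace Pool.Agent.V8H24.QS

open Complex hiding im
open Filter Topology MeasureTheory Set
open Pool.Agent.N879.QM Pool.Agent.V8H6.RW
open scoped BigOperators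

noncomputable section

/-- the transfer: weights `c` with `|c| ≤ W` -/
theorem trans (k : ℕ) (hk : 1 ≤ k) {θ η : ℝ} (hθ : 0 < θ) (hθ1 : θ ≤ 1) (hη : 0 < η) (hη1 : η ≤ θ / 4) :
    ∃ X₀ : ℝ, ∀ (s : ℤ) (X : ℝ), s = 1 ∨ s = -1 → X₀ ≤ X →
      ((Ex s X (X ^ θ) (η / (8 * k))).card : ℝ) ≤ X ^ (1 - η / (32 * k)) ∧
      ∀ (N : ℕ), X ^ η / 2 ≤ N → (N : ℝ) ≤ X ^ η → 1 ≤ N → ∀ (D : Finset ℕ) (c : ℕ → ℂ),
      D ⊆ Q s X → (∀ q ∈ D, ‖c q‖ ≤ 1) →
      mS k (X ^ θ) {β : Fin k → ℝ | X ^ (1 - η / (128 * k)) / 2 <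
        ‖(∑ q ∈ D \ Ex s X (X ^ θ) (η / (8 * k)), c q * ∏ j, LL s q (pt (β j))) -
          ∑ q ∈ D, c q * ∏ j, PN s q N (β j)‖} ≤
        ENNReal.ofReal (X ^ (k * θ - η / (128 * k))) := by
  classical
  have hk0 : (0 : ℝ) < k := by exact_mod_cast hk
  have hk1 : (1 : ℝ) ≤ k := by exact_mod_cast hk
  set ρ : ℝ := η / (8 * k) with hρ
  have hρ0 : 0 < ρ := by positivity
  have hρη : ρ ≤ η / 8 := by
    rw [hρ]
    exact div_le_div_of_nonneg_left hη.le (by norm_num) (by linarith)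
  set δ : ℝ := η / (128 * k) with hδ
  have hδρ : δ = ρ / 16 := by rw [hδ, hρ]; field_simp; ring
  have hδ0 : 0 < δ := by positivity
  have e32 : η / (32 * k) = ρ / 4 := by rw [hρ]; field_simp; ring
  obtain ⟨C1, X1, hC1, hE1⟩ := e1W (k := k) hk hθ hθ1 hη hη1
  have hMB : S_MB := t_MB t_HBG (t_BIG1P (t_BLK t_MVG) t_ONE t_PVI) t_AFS t_CTS
  obtain ⟨CE, hCE, hEx⟩ := Ex_card hMB hρ0
  obtain ⟨CR, hCR, hR⟩ := rmvW k
  have hc := t_CTS
  have ev1 := log_small k hθ (show 0 < ρ / 2 by positivity)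
  have ev2 : ∀ᶠ X : ℝ in atTop, 2 ≤ X ^ θ := (tendsto_rpow_atTop hθ).eventually_ge_atTop _
  have ev3 : ∀ᶠ X : ℝ in atTop, CE ≤ X ^ (ρ / 4) :=
    (tendsto_rpow_atTop (by positivity)).eventually_ge_atTop _
  have ev4 : ∀ᶠ X : ℝ in atTop, 16 * C1 + 16 * (CR * CE ^ 2) ≤ X ^ δ :=
    (tendsto_rpow_atTop hδ0).eventually_ge_atTop _
  obtain ⟨X₀, hX₀⟩ := eventually_atTop.1 ((((ev1.and ev2).and (ev3.and ev4)).and
    (eventually_ge_atTop X1)).and (eventually_ge_atTop 2))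
  refine ⟨X₀, ?_⟩
  intro s X hs hX
  obtain ⟨⟨⟨⟨v1, v2⟩, v3, v4⟩, v5⟩, v7⟩ := hX₀ X hX
  have hX0 : 0 < X := by linarith
  have hX1 : 1 ≤ X := by linarith
  set A : ℝ := X ^ θ with hA
  have hAX : A ≤ X := by
    rw [hA]
    calc X ^ θ ≤ X ^ (1 : ℝ) := Real.rpow_le_rpow_of_exponent_le hX1 hθ1
      _ = X := Real.rpow_one X
  have hA0 : 0 < A := by linarith
  have hA1 : 1 ≤ A := by linarith
  set E : Finset ℕ := Ex s X A ρ with hEd
  have hEc : (E.card : ℝ) ≤ CE * X ^ (1 - ρ / 2) := hEx s X A hs v2 hAX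
  refine ⟨?_, ?_⟩
  · refine hEc.trans ?_
    calc CE * X ^ (1 - ρ / 2) ≤ X ^ (ρ / 4) * X ^ (1 - ρ / 2) := by gcongr
      _ = X ^ (1 - η / (32 * k)) := by rw [← Real.rpow_add hX0, e32]; congr 1; ring
  intro N f1 f2 f3 D c hD hcD
  have hNA : (N : ℝ) ≤ A := by
    refine f2.trans ?_
    apply Real.rpow_le_rpow_of_exponent_le hX1
    linarith
  have hDE : D \ E ⊆ Q s X \ E := Finset.sdiff_subset_sdiff hD subset_rfl
  have g1 := hE1 s X N (D \ E) c hs v5 f1 f2 f3 hDE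
  have g2 := hR s A N (D ∩ E) c v2 f3 hNA
  have hAk : A ^ k = X ^ (k * θ) := by
    rw [hA, ← Real.rpow_natCast, ← Real.rpow_mul hX0.le]
    congr 1; ring
  -- numbers
  have hcard : ∑ q ∈ D \ E, ‖c q‖ ^ 2 ≤ X := by
    calc ∑ q ∈ D \ E, ‖c q‖ ^ 2 ≤ ∑ q ∈ D \ E, (1 : ℝ) := by
          refine Finset.sum_le_sum fun q hq => ?_
          have := hcD q (Finset.mem_sdiff.1 hq).1
          have h0 := norm_nonneg (c q)
          nlinarith
      _ = ((D \ E).card : ℝ) := by rw [Finset.sum_const, nsmul_eq_mul, mul_one]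
      _ ≤ ((Q s X).card : ℝ) := by
          exact_mod_cast Finset.card_le_card (Finset.sdiff_subset.trans hD)
      _ ≤ X := Q_card hX1
  have hcard2 : ∑ q ∈ D ∩ E, ‖c q‖ ≤ CE * X ^ (1 - ρ / 2) := by
    calc ∑ q ∈ D ∩ E, ‖c q‖ ≤ ∑ q ∈ D ∩ E, (1 : ℝ) :=
          Finset.sum_le_sum fun q hq => hcD q (Finset.mem_inter.1 hq).1
      _ = ((D ∩ E).card : ℝ) := by rw [Finset.sum_const, nsmul_eq_mul, mul_one]
      _ ≤ (E.card : ℝ) := by exact_mod_cast Finset.card_le_card Finset.inter_subset_right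
      _ ≤ _ := hEc
  have n1 : C1 * X ^ (k * θ + 1 - η / 4) * ∑ q ∈ D \ E, ‖c q‖ ^ 2 ≤ C1 * X ^ (k * θ + 2 - η / 4) := by
    calc C1 * X ^ (k * θ + 1 - η / 4) * ∑ q ∈ D \ E, ‖c q‖ ^ 2 ≤
        C1 * X ^ (k * θ + 1 - η / 4) * X := by gcongr
      _ = C1 * X ^ (k * θ + 2 - η / 4) := by
          rw [mul_assoc]
          congr 1
          nth_rewrite 2 [← Real.rpow_one X]
          rw [← Real.rpow_add hX0]
          congr 1
          ring
  have n2 : CR * A ^ k * Real.log A ^ k * (∑ q ∈ D ∩ E, ‖c q‖) ^ 2 ≤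
      CR * CE ^ 2 * X ^ (k * θ + 2 - ρ / 2) := by
    have h1 : Real.log A ^ k ≤ X ^ (ρ / 2) := by
      rw [hA, Real.log_rpow hX0]
      exact v1
    have h3 : 0 ≤ Real.log A := Real.log_nonneg (by linarith)
    have h4 : 0 ≤ ∑ q ∈ D ∩ E, ‖c q‖ := Finset.sum_nonneg fun _ _ => norm_nonneg _
    calc CR * A ^ k * Real.log A ^ k * (∑ q ∈ D ∩ E, ‖c q‖) ^ 2
        ≤ CR * X ^ (k * θ) * X ^ (ρ / 2) * (CE * X ^ (1 - ρ / 2)) ^ 2 := by
          rw [hAk]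
          gcongr
      _ = CR * CE ^ 2 * (X ^ (k * θ) * X ^ (ρ / 2) * (X ^ (1 - ρ / 2)) ^ 2) := by ring
      _ = CR * CE ^ 2 * X ^ (k * θ + 2 - ρ / 2) := by
          congr 1
          rw [← Real.rpow_natCast (X ^ (1 - ρ / 2)), ← Real.rpow_mul hX0.le, ← Real.rpow_add hX0,
            ← Real.rpow_add hX0]
          congr 1
          push_cast; ring
  have g1' := g1.trans (ENNReal.ofReal_le_ofReal n1)
  have g2' := g2.trans (ENNReal.ofReal_le_ofReal n2)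
  set D1 : (Fin k → ℝ) → ℂ := fun β => ∑ q ∈ D \ E, c q * (∏ j, LL s q (pt (β j)) - ∏ j, PN s q N (β j))
    with hD1
  set D2 : (Fin k → ℝ) → ℂ := fun β => ∑ q ∈ D ∩ E, c q * ∏ j, PN s q N (β j) with hD2
  have c1 : Continuous D1 := by
    refine continuous_finset_sum _ fun q hq => continuous_const.mul (Continuous.sub ?_ ?_)
    · exact continuous_finset_prod _ fun j _ =>
        (hc s q (Q_is (hD (Finset.mem_sdiff.1 hq).1)).1).comp (continuous_apply j)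
    · exact continuous_finset_prod _ fun j _ => (PN_cont s q N).comp (continuous_apply j)
  have c2 : Continuous D2 :=
    continuous_finset_sum _ fun q _ => continuous_const.mul
      (continuous_finset_prod _ fun j _ => (PN_cont s q N).comp (continuous_apply j))
  have hsub : {β : Fin k → ℝ | X ^ (1 - δ) / 2 <
      ‖(∑ q ∈ D \ E, c q * ∏ j, LL s q (pt (β j))) - ∑ q ∈ D, c q * ∏ j, PN s q N (β j)‖} ⊆
      {β | X ^ (1 - δ) / 4 < ‖D1 β‖} ∪ {β | X ^ (1 - δ) / 4 < ‖D2 β‖} := by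
    intro β hβ
    by_contra hcon
    simp only [mem_union, not_or, mem_setOf_eq, not_lt] at hcon
    obtain ⟨h1, h2⟩ := hcon
    have e0 : ∑ q ∈ D, c q * ∏ j, PN s q N (β j) =
        (∑ q ∈ D \ E, c q * ∏ j, PN s q N (β j)) + D2 β := by
      rw [hD2, ← Finset.sum_sdiff (Finset.inter_subset_left (s₁ := D) (s₂ := E)),
        Finset.sdiff_inter_self_left]
    have e : (∑ q ∈ D \ E, c q * ∏ j, LL s q (pt (β j))) - ∑ q ∈ D, c q * ∏ j, PN s q N (β j) =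
        D1 β - D2 β := by
      rw [e0]
      simp only [hD1, mul_sub, Finset.sum_sub_distrib]
      ring
    have h5 : ‖(∑ q ∈ D \ E, c q * ∏ j, LL s q (pt (β j))) - ∑ q ∈ D, c q * ∏ j, PN s q N (β j)‖ ≤
        X ^ (1 - δ) / 2 := by
      rw [e]
      refine (norm_sub_le _ _).trans ?_
      linarith
    exact absurd h5 (not_le.2 hβ)
  refine (measure_mono hsub).trans ((measure_union_le _ _).trans ?_)
  have hXδ : 0 < X ^ (1 - δ) / 4 := by positivity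
  have esq : (X ^ (1 - δ) / 4) ^ 2 = X ^ (2 - 2 * δ) / 16 := by
    rw [div_pow, ← Real.rpow_natCast, ← Real.rpow_mul hX0.le]
    norm_num
    congr 1; ring
  have hXd2 : 0 < X ^ (2 - 2 * δ) := by positivity
  have m2 : mS k A {β | X ^ (1 - δ) / 4 < ‖D1 β‖} ≤ ENNReal.ofReal (16 * C1 * X ^ (k * θ - 2 * δ)) := by
    refine (cheb (g := fun β => ‖D1 β‖) c1.norm.aemeasurable hXδ g1').trans
      (ENNReal.ofReal_le_ofReal ?_)
    rw [esq]
    have e2 : X ^ (k * θ + 2 - η / 4) ≤ X ^ (k * θ - 2 * δ) * X ^ (2 - 2 * δ) := by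
      rw [← Real.rpow_add hX0]
      apply Real.rpow_le_rpow_of_exponent_le hX1
      rw [hδρ]; linarith
    rw [div_le_iff₀ (by positivity)]
    calc C1 * X ^ (k * θ + 2 - η / 4) ≤ C1 * (X ^ (k * θ - 2 * δ) * X ^ (2 - 2 * δ)) := by gcongr
      _ = 16 * C1 * X ^ (k * θ - 2 * δ) * (X ^ (2 - 2 * δ) / 16) := by ring
  have m4 : mS k A {β | X ^ (1 - δ) / 4 < ‖D2 β‖} ≤
      ENNReal.ofReal (16 * (CR * CE ^ 2) * X ^ (k * θ - 2 * δ)) := by
    refine (cheb (g := fun β => ‖D2 β‖) c2.norm.aemeasurable hXδ g2').trans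
      (ENNReal.ofReal_le_ofReal ?_)
    rw [esq]
    have e2 : X ^ (k * θ + 2 - ρ / 2) ≤ X ^ (k * θ - 2 * δ) * X ^ (2 - 2 * δ) := by
      rw [← Real.rpow_add hX0]
      apply Real.rpow_le_rpow_of_exponent_le hX1
      rw [hδρ]; linarith
    rw [div_le_iff₀ (by positivity)]
    calc CR * CE ^ 2 * X ^ (k * θ + 2 - ρ / 2) ≤ CR * CE ^ 2 * (X ^ (k * θ - 2 * δ) * X ^ (2 - 2 * δ)) := by
          gcongr
      _ = 16 * (CR * CE ^ 2) * X ^ (k * θ - 2 * δ) * (X ^ (2 - 2 * δ) / 16) := by ring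
  refine (add_le_add m2 m4).trans ?_
  rw [← ENNReal.ofReal_add (by positivity) (by positivity)]
  apply ENNReal.ofReal_le_ofReal
  calc 16 * C1 * X ^ (k * θ - 2 * δ) + 16 * (CR * CE ^ 2) * X ^ (k * θ - 2 * δ)
      = (16 * C1 + 16 * (CR * CE ^ 2)) * X ^ (k * θ - 2 * δ) := by ring
    _ ≤ X ^ δ * X ^ (k * θ - 2 * δ) := by gcongr
    _ = X ^ (k * θ - δ) := by rw [← Real.rpow_add hX0]; congr 1; ring

end

end Pool.Agent.V8H24.QS
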