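import Pool.Agent.V8H24.QS.Prm

set_option autoImplicit false

/-!
The sums over primes with the weights `log p log (Y / p)` on average over the nonsquare integers `n ≤ K`.
-/

namespace Pool.Agent.V8H24.QS

open Complex hiding im
open Finset Filter Topology
open Pool.Agent.H410R2 Pool.Agent.H398R2.BV
open Pool.Agent.N879.QM (Is Rp vl ch t_UNI)

noncomputable section

/-- the sum over the family with the weights `log p log (Y / p)` -/
def FS (s : ℤ) (n : ℕ) (Y : ℝ) : ℂ :=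
  ∑ p ∈ (Icc 1 ⌊Y⌋₊).filter (fun p : ℕ => p.Prime ∧ (p : ℤ) % 4 = s % 4), ((Real.log p * Real.log (Y / p) : ℝ) : ℂ) * vl s p n

theorem FS_eq {s : ℤ} (hs : s = 1 ∨ s = -1) (n : ℕ) (Y : ℝ) :
    FS s n Y = (1 / 2) * (GD (1 * (n : ℤ)) Y + (s : ℂ) * GD (-1 * (n : ℤ)) Y) := by
  have hss : (s : ℂ) * (s : ℂ) = 1 := by
    rcases hs with rfl | rfl <;> norm_num
  unfold FS GD
  rw [sum_filter, mul_sum, ← sum_add_distrib, mul_sum]
  refine sum_congr rfl fun m _ => ?_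
  by_cases hp : m.Prime
  · have hlq : lq m = Real.log m := by unfold lq; rw [if_pos hp]
    by_cases ho : Odd m
    · have e1 : zro (-1 * (n : ℤ)) m = ZMod.χ₄ (m : ZMod 4) * zro (n : ℤ) m := by
        unfold zro
        rw [if_pos ho, if_pos ho, neg_one_mul, jacobiSym.neg _ ho]
      rw [one_mul, e1]
      by_cases h : (m : ℤ) % 4 = s % 4
      · rw [if_pos ⟨hp, h⟩, vl_prime hs hp h, chi4_of hs h, hlq]
        generalize ((Real.log m * Real.log (Y / m) : ℝ) : ℂ) = w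
        push_cast
        linear_combination (-(1 / 2) * w * (zro (n : ℤ) m : ℂ)) * hss
      · have h2 : ZMod.χ₄ (m : ZMod 4) = -s := by
          have ho' := Nat.odd_iff.1 ho
          have : m % 4 = 1 ∨ m % 4 = 3 := by omega
          rcases hs with rfl | rfl
          · have h3 : m % 4 = 3 := by omega
            rw [ZMod.χ₄_nat_three_mod_four h3]
          · have h3 : m % 4 = 1 := by omega
            rw [ZMod.χ₄_nat_one_mod_four h3]
            norm_num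
        rw [if_neg (fun hh => h hh.2), h2, hlq]
        generalize ((Real.log m * Real.log (Y / m) : ℝ) : ℂ) = w
        push_cast
        linear_combination ((1 / 2) * w * (zro (n : ℤ) m : ℂ)) * hss
    · have e1 : zro (1 * (n : ℤ)) m = 0 := by unfold zro; rw [if_neg ho]
      have e2 : zro (-1 * (n : ℤ)) m = 0 := by unfold zro; rw [if_neg ho]
      rw [e1, e2, if_neg (fun hh => ho (odd_of hs hh.2))]
      simp
  · have hlq : lq m = 0 := by unfold lq; rw [if_neg hp]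
    rw [if_neg (fun hh => hp hh.1), hlq]
    simp

theorem sum_inv_le {K : ℕ} : ∑ n ∈ Icc 1 K, (1 / (n : ℝ)) ≤ 1 + Real.log K := by
  have h := harmonic_le_one_add_log K
  rw [harmonic_eq_sum_Icc] at h
  push_cast at h
  simpa [one_div] using h

theorem sum_inv_sq_le {K : ℕ} : ∑ n ∈ Icc 1 K, (1 / (n : ℝ) ^ 2) ≤ 2 := by
  have h := sum_Ioo_inv_sq_le (α := ℝ) 0 (K + 1)
  have e : Ioo 0 (K + 1) = Icc 1 K := by
    ext n
    rw [mem_Ioo, mem_Icc]
    omega
  rw [e] at h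
  simpa [one_div] using h

/-- nonsquare integers up to `K` -/
def NSq (K : ℕ) : Finset ℕ := by
  classical
  exact (Icc 1 K).filter (fun n => ¬ IsSquare n)

theorem mem_NSq {K n : ℕ} : n ∈ NSq K ↔ (1 ≤ n ∧ n ≤ K) ∧ ¬ IsSquare n := by
  classical
  unfold NSq
  rw [mem_filter, mem_Icc]

theorem NSq_sub (K : ℕ) : NSq K ⊆ Icc 1 K := fun n hn => mem_Icc.2 (mem_NSq.1 hn).1

theorem sum_dec (K : ℕ) (P : ℕ → ℝ) (hP : ∀ n, 0 ≤ P n) (a b : ℕ → ℕ)
    (hab : ∀ n, b n ^ 2 * a n = n ∧ Squarefree (a n)) :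
    ∑ n ∈ NSq K, (1 / (n : ℝ)) * P (a n) ≤ 2 * ∑ m ∈ (Icc 2 K).filter Squarefree, (1 / (m : ℝ)) * P m := by
  classical
  set g : ℕ × ℕ → ℝ := fun x => (1 / (x.1 : ℝ) ^ 2) * ((1 / (x.2 : ℝ)) * P x.2) with hg
  have hg0 : ∀ x, 0 ≤ g x := fun x => by
    have := hP x.2
    simp only [hg]
    positivity
  have e1 : ∀ n ∈ NSq K, (1 / (n : ℝ)) * P (a n) = g (b n, a n) := by
    intro n _
    have h := (hab n).1
    simp only [hg]
    rw [← mul_assoc]
    congr 1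
    have h2 : (n : ℝ) = (b n : ℝ) ^ 2 * (a n : ℝ) := by exact_mod_cast h.symm
    rw [h2, one_div_mul_one_div]
  rw [sum_congr rfl e1]
  have e2 : ∑ n ∈ NSq K, g (b n, a n) = ∑ x ∈ (NSq K).image (fun n => (b n, a n)), g x := by
    rw [sum_image]
    intro m _ n _ hmn
    simp only [Prod.mk.injEq] at hmn
    rw [← (hab m).1, ← (hab n).1, hmn.1, hmn.2]
  rw [e2]
  have h3 : (NSq K).image (fun n => (b n, a n)) ⊆ (Icc 1 K) ×ˢ ((Icc 2 K).filter Squarefree) := by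
    intro x hx
    rw [mem_image] at hx
    obtain ⟨n, hn, rfl⟩ := hx
    rw [mem_NSq] at hn
    obtain ⟨h4, h5⟩ := hab n
    have hb0 : b n ≠ 0 := by
      intro h0
      rw [h0] at h4
      simp at h4
      omega
    have ha0 : a n ≠ 0 := h5.ne_zero
    have ha1 : a n ≠ 1 := by
      intro h1
      rw [h1, mul_one] at h4
      exact hn.2 ⟨b n, by rw [← sq]; exact h4.symm⟩
    have hb1 : b n ≤ n := by
      calc b n ≤ b n ^ 2 := Nat.le_self_pow two_ne_zero _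
        _ ≤ b n ^ 2 * a n := Nat.le_mul_of_pos_right _ (by omega)
        _ = n := h4
    have ha2 : a n ≤ n := by
      calc a n ≤ b n ^ 2 * a n := Nat.le_mul_of_pos_left _ (by positivity)
        _ = n := h4
    rw [mem_product, mem_Icc, mem_filter, mem_Icc]
    exact ⟨⟨by show 1 ≤ b n; omega, hb1.trans hn.1.2⟩, ⟨by show 2 ≤ a n; omega, ha2.trans hn.1.2⟩, h5⟩
  refine (sum_le_sum_of_subset_of_nonneg h3 fun x _ _ => hg0 x).trans ?_
  rw [sum_product]
  simp only [hg]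
  rw [← sum_mul_sum]
  exact mul_le_mul_of_nonneg_right sum_inv_sq_le (sum_nonneg fun m _ => by have := hP m; positivity)

theorem log_pow_le (B : ℕ) {η : ℝ} (hη : 0 < η) : ∀ᶠ X : ℝ in atTop, Real.log X ^ B ≤ X ^ η := by
  have h1 := (isLittleO_log_rpow_rpow_atTop (B : ℝ) hη).def (show (0 : ℝ) < 1 by norm_num)
  filter_upwards [h1, eventually_ge_atTop 1] with X hX hX1
  have hl : 0 ≤ Real.log X := Real.log_nonneg hX1
  rw [Real.norm_of_nonneg (by positivity), Real.norm_of_nonneg (by positivity), Real.rpow_natCast, one_mul] at hX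
  exact hX

/-- the bound on average -/
theorem sum_V (U : ℕ) : ∃ Y₀ : ℝ, ∀ (s : ℤ) (Y : ℝ) (K : ℕ), s = 1 ∨ s = -1 → Y₀ ≤ Y → 1 ≤ K →
    (K : ℝ) ≤ Y ^ (1 / 4 : ℝ) → ∑ n ∈ NSq K, (1 / (n : ℝ)) * ‖FS s n Y‖ ≤ Y / Real.log Y ^ U := by
  classical
  obtain ⟨B, X0, hbv⟩ := H343E.bv_log (U + 1)
  have ev1 := log_pow_le B (show (0 : ℝ) < 1 / 8 by norm_num)
  have ev2 : ∀ᶠ X : ℝ in atTop, 4 ≤ X ^ (1 / 8 : ℝ) := (tendsto_rpow_atTop (by norm_num)).eventually_ge_atTop _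
  have ev3 := log_pow_le (U + 3) (show (0 : ℝ) < 1 / 8 by norm_num)
  have ev4 : ∀ᶠ X : ℝ in atTop, 24 ≤ X ^ (3 / 8 : ℝ) := (tendsto_rpow_atTop (by norm_num)).eventually_ge_atTop _
  have ev5 : ∀ᶠ X : ℝ in atTop, 32 ≤ Real.log X := Real.tendsto_log_atTop.eventually_ge_atTop _
  obtain ⟨Y₀, hY₀⟩ := eventually_atTop.1 ((((ev1.and ev2).and (ev3.and ev4)).and ev5).and
    ((eventually_ge_atTop X0).and (eventually_ge_atTop 4)))
  refine ⟨Y₀, ?_⟩
  intro s Y K hs hY hK hKY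
  obtain ⟨⟨⟨⟨v1, v2⟩, v3, v4⟩, v5⟩, v6, v7⟩ := hY₀ Y hY
  have hY0 : 0 < Y := by linarith
  have hY1 : 1 ≤ Y := by linarith
  set L := Real.log Y with hL
  have hL0 : 0 < L := by linarith
  have hK0 : (0 : ℝ) < K := by exact_mod_cast hK
  have hKY' : (K : ℝ) ≤ Y := by
    refine hKY.trans ?_
    calc Y ^ (1 / 4 : ℝ) ≤ Y ^ (1 : ℝ) := Real.rpow_le_rpow_of_exponent_le hY1 (by norm_num)
      _ = Y := Real.rpow_one Y
  have hlK : Real.log K ≤ L := Real.log_le_log hK0 hKY'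
  have hlK4 : Real.log ((4 * K : ℕ) : ℝ) ≤ 2 * L := by
    push_cast
    rw [Real.log_mul (by norm_num) hK0.ne', two_mul]
    exact add_le_add (Real.log_le_log (by norm_num) v7) hlK
  choose a b hab using Nat.sq_mul_squarefree
  set P : ℤ → ℕ → ℝ := fun t m => ‖psiLog Y (pc (t * (m : ℤ))).1 (pc (t * (m : ℤ))).2‖ with hP
  set R : ℝ := 5 * √Y * L ^ 2 with hR
  have hsY : 1 ≤ √Y := by
    rw [Real.one_le_sqrt]
    exact hY1
  -- one function
  have h1 : ∀ n ∈ NSq K, ∀ t : ℤ, t = 1 ∨ t = -1 → ‖GD (t * (n : ℤ)) Y‖ ≤ P t (a n) + R := by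
    intro n hn t ht
    rw [mem_NSq] at hn
    obtain ⟨h4, h5⟩ := hab n
    have hb0 : b n ≠ 0 := by
      intro h0
      rw [h0] at h4
      simp at h4
      omega
    have ha0 : a n ≠ 0 := h5.ne_zero
    have ha1 : a n ≠ 1 := by
      intro h1
      rw [h1, mul_one] at h4
      exact hn.2 ⟨b n, by rw [← sq]; exact h4.symm⟩
    have hb1 : b n ≤ n := by
      calc b n ≤ b n ^ 2 := Nat.le_self_pow two_ne_zero _
        _ ≤ b n ^ 2 * a n := Nat.le_mul_of_pos_right _ (by omega)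
        _ = n := h4
    have ha2 : a n ≤ n := by
      calc a n ≤ b n ^ 2 * a n := Nat.le_mul_of_pos_left _ (by positivity)
        _ = n := h4
    have h6 := GD_sq (t := t) (a := a n) hb0 hY1
    rw [h4, ← hL] at h6
    have h7 := GD_psi (not_sq_of_sqf h5 (by omega) ht) hY1
    have e : (t * (a n : ℤ)).natAbs = a n := by
      rcases ht with rfl | rfl <;> simp
    rw [e, ← hL] at h7
    have hlb : Real.log (b n) ≤ L := by
      refine le_trans (Real.log_le_log ?_ ?_) hlK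
      · exact_mod_cast Nat.pos_of_ne_zero hb0
      · exact_mod_cast hb1.trans hn.1.2
    have hla : Real.log ((4 * a n : ℕ) : ℝ) ≤ 2 * L := by
      refine le_trans (Real.log_le_log ?_ ?_) hlK4
      · exact_mod_cast (by omega : 0 < 4 * a n)
      · exact_mod_cast (by have := hn.1.2; omega : 4 * a n ≤ 4 * K)
    have h8 : Real.log (b n) * L ≤ L * L := mul_le_mul_of_nonneg_right hlb hL0.le
    have h9 : Real.log ((4 * a n : ℕ) : ℝ) * L ≤ 2 * L * L := mul_le_mul_of_nonneg_right hla hL0.le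
    have h10 : L * L ≤ √Y * (L * L) := le_mul_of_one_le_left (by positivity) hsY
    have h11 : R = 2 * √Y * L * L + 3 * (√Y * (L * L)) := by rw [hR]; ring
    rw [h11]
    have h12 : ‖GD (t * (a n : ℤ)) Y‖ ≤ P t (a n) + 2 * √Y * L * L + Real.log ((4 * a n : ℕ) : ℝ) * L := h7
    linarith
  have h2 : ∀ n ∈ NSq K, (1 / (n : ℝ)) * ‖FS s n Y‖ ≤
      (1 / (n : ℝ)) * P 1 (a n) + (1 / (n : ℝ)) * P (-1) (a n) + R * (1 / (n : ℝ)) := by
    intro n hn
    have h3 := h1 n hn 1 (Or.inl rfl)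
    have h4 := h1 n hn (-1) (Or.inr rfl)
    have hss : ‖(s : ℂ)‖ = 1 := by
      rcases hs with rfl | rfl <;> simp
    have h5 : ‖FS s n Y‖ ≤ P 1 (a n) + P (-1) (a n) + R := by
      rw [FS_eq hs, norm_mul]
      have h6 := norm_add_le (GD (1 * (n : ℤ)) Y) ((s : ℂ) * GD (-1 * (n : ℤ)) Y)
      rw [norm_mul, hss] at h6
      have h7 : ‖(1 / 2 : ℂ)‖ = 1 / 2 := by norm_num
      rw [h7]
      have h8 : 0 ≤ P 1 (a n) := norm_nonneg _
      have h9 : 0 ≤ P (-1) (a n) := norm_nonneg _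
      linarith
    have hn0 : (0 : ℝ) ≤ 1 / (n : ℝ) := by positivity
    calc (1 / (n : ℝ)) * ‖FS s n Y‖ ≤ (1 / (n : ℝ)) * (P 1 (a n) + P (-1) (a n) + R) :=
          mul_le_mul_of_nonneg_left h5 hn0
      _ = _ := by ring
  refine (sum_le_sum h2).trans ?_
  rw [sum_add_distrib, sum_add_distrib, ← mul_sum]
  have hF : ((4 * K : ℕ) : ℝ) ≤ √Y / L ^ B := by
    rw [le_div_iff₀ (by positivity)]
    push_cast
    calc 4 * (K : ℝ) * L ^ B ≤ Y ^ (1 / 8 : ℝ) * Y ^ (1 / 4 : ℝ) * Y ^ (1 / 8 : ℝ) := by gcongr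
      _ = √Y := by
          rw [Real.sqrt_eq_rpow, ← Real.rpow_add hY0, ← Real.rpow_add hY0]
          norm_num
  have hb := hbv Y v6 (4 * K) hF
  rw [← hL] at hb
  have c1 : ∀ t : ℤ, t = 1 ∨ t = -1 → ∑ n ∈ NSq K, (1 / (n : ℝ)) * P t (a n) ≤ 8 * (Y / L ^ (U + 1)) := by
    intro t ht
    refine (sum_dec K (P t) (fun m => norm_nonneg _) a b hab).trans ?_
    have h3 := sum_prim Y K ht
    have h4 : ∑ m ∈ (Icc 2 K).filter Squarefree, (1 / (m : ℝ)) * P t m ≤ 4 * (Y / L ^ (U + 1)) :=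
      h3.trans (mul_le_mul_of_nonneg_left hb (by norm_num))
    linarith
  have c2 := c1 1 (Or.inl rfl)
  have c3 := c1 (-1) (Or.inr rfl)
  have c4 : R * ∑ n ∈ NSq K, (1 / (n : ℝ)) ≤ R * (2 * L) := by
    apply mul_le_mul_of_nonneg_left _ (by positivity)
    calc ∑ n ∈ NSq K, (1 / (n : ℝ)) ≤ ∑ n ∈ Icc 1 K, (1 / (n : ℝ)) :=
          sum_le_sum_of_subset_of_nonneg (NSq_sub K) fun n _ _ => by positivity
      _ ≤ 1 + Real.log K := sum_inv_le
      _ ≤ 2 * L := by linarith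
  have c5 : 16 * (Y / L ^ (U + 1)) ≤ (Y / L ^ U) * (16 / L) := by
    rw [pow_succ]
    apply le_of_eq
    field_simp
  have c6 : R * (2 * L) ≤ (Y / L ^ U) * (10 / 24) := by
    have e : R * (2 * L) = (10 * √Y * L ^ (U + 3)) / L ^ U := by
      rw [hR, eq_div_iff (by positivity), pow_add]
      ring
    rw [e, div_mul_eq_mul_div]
    apply div_le_div_of_nonneg_right _ (by positivity)
    have h3 : 24 * (√Y * L ^ (U + 3)) ≤ Y := by
      calc 24 * (√Y * L ^ (U + 3)) ≤ Y ^ (3 / 8 : ℝ) * (Y ^ (1 / 2 : ℝ) * Y ^ (1 / 8 : ℝ)) := by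
            rw [Real.sqrt_eq_rpow]
            gcongr
        _ = Y := by
            rw [← Real.rpow_add hY0, ← Real.rpow_add hY0]
            norm_num
    linarith
  have c7 : 16 / L ≤ 1 / 2 := by
    rw [div_le_div_iff₀ hL0 (by norm_num)]
    linarith
  have c8 : (Y / L ^ U) * (16 / L) ≤ (Y / L ^ U) * (1 / 2) :=
    mul_le_mul_of_nonneg_left c7 (by positivity)
  have c9 : 0 ≤ Y / L ^ U := by positivity
  linarith

end

end Pool.Agent.V8H24.QS
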